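import Mathlib

namespace Pool.Agent.H.MP_89f94c_an

open Filter Topology Set

noncomputable abbrev E := lp (fun _ : ℚ => ℂ) 1

theorem sm1 (x : E) : HasSum (fun i => ‖x i‖) ‖x‖ := by
  simpa using lp.hasSum_norm (p := 1) (by simp) x

noncomputable def e (t : ℚ) : E := lp.single 1 t 1

theorem e_norm (t : ℚ) : ‖e t‖ = 1 := by rw [e, lp.norm_single one_pos, norm_one]

theorem e_ap (t u : ℚ) : e t u = if u = t then 1 else 0 := by
  rw [e, lp.single_apply, Pi.single_apply]

section
variable {F : Type} [NormedAddCommGroup F] [NormedSpace ℂ F] [CompleteSpace F]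

omit [CompleteSpace F] in
theorem Lb (v : ℚ → F) (hv : ∀ i, ‖v i‖ ≤ 1) (x : E) (i : ℚ) : ‖x i • v i‖ ≤ ‖x i‖ := by
  rw [norm_smul]; exact mul_le_of_le_one_right (norm_nonneg _) (hv i)

theorem Ls (v : ℚ → F) (hv : ∀ i, ‖v i‖ ≤ 1) (x : E) : Summable fun i => x i • v i :=
  .of_norm_bounded (sm1 x).summable (Lb v hv x)

noncomputable def L (v : ℚ → F) (hv : ∀ i, ‖v i‖ ≤ 1) : E →L[ℂ] F :=
  LinearMap.mkContinuous
    { toFun := fun x => ∑' i, x i • v i
      map_add' := fun x y => by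
        rw [← (Ls v hv x).tsum_add (Ls v hv y)]
        exact tsum_congr fun i => add_smul _ _ _
      map_smul' := fun c x => by
        rw [← (Ls v hv x).tsum_const_smul]
        exact tsum_congr fun i => mul_smul _ _ _ } 1
    fun x => by rw [one_mul]; exact tsum_of_norm_bounded (sm1 x) (Lb v hv x)

theorem L_norm (v : ℚ → F) (hv : ∀ i, ‖v i‖ ≤ 1) : ‖L v hv‖ ≤ 1 :=
  LinearMap.mkContinuous_norm_le _ zero_le_one _

theorem L_ap (v : ℚ → F) (hv : ∀ i, ‖v i‖ ≤ 1) (x : E) : HasSum (fun i => x i • v i) (L v hv x) :=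
  (Ls v hv x).hasSum

theorem L_e (v : ℚ → F) (hv : ∀ i, ‖v i‖ ≤ 1) (t : ℚ) : L v hv (e t) = v t := by
  refine (L_ap v hv _).unique ?_
  convert hasSum_single (f := fun i => e t i • v i) t fun i hi => by simp [e_ap, hi]
  simp [e_ap]

omit [CompleteSpace F] in
theorem ext_e {f g : E →L[ℂ] F} (h : ∀ t, f (e t) = g (e t)) : f = g :=
  lp.ext_continuousLinearMap (by simp) fun t => ContinuousLinearMap.ext_ring (h t)

end

noncomputable def Mu : E →L[ℂ] E →L[ℂ] E :=
  L (fun s => L (fun t => e (s + t)) fun _ => (e_norm _).le) fun _ => L_norm _ _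

theorem Mu_e (s t : ℚ) : Mu (e s) (e t) = e (s + t) := by rw [Mu, L_e, L_e]

theorem Mu_comm (x y : E) : Mu x y = Mu y x := by
  have : Mu = Mu.flip := ext_e fun s => ext_e fun t => by
    rw [ContinuousLinearMap.flip_apply, Mu_e, Mu_e, add_comm]
  conv_lhs => rw [this]
  rfl

theorem Mu_assoc (x y z : E) : Mu (Mu x y) z = Mu x (Mu y z) := by
  have h1 : ∀ s t, Mu (Mu (e s) (e t)) = (Mu (e s)).comp (Mu (e t)) := fun s t =>
    ext_e fun u => by rw [ContinuousLinearMap.comp_apply, Mu_e, Mu_e, Mu_e, Mu_e, add_assoc]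
  have h2 : ∀ s, (Mu.flip z).comp (Mu (e s)) = (Mu (e s)).comp (Mu.flip z) := fun s =>
    ext_e fun t => congrArg (· z) (h1 s t)
  have h3 : (Mu.flip z).comp (Mu.flip y) = Mu.flip (Mu y z) :=
    ext_e fun s => congrArg (· y) (h2 s)
  exact congrArg (· x) h3

theorem Mu_one (x : E) : Mu (e 0) x = x := by
  have : Mu (e 0) = .id ℂ E := ext_e fun t => by rw [Mu_e, zero_add]; rfl
  rw [this]; rfl

theorem Mu_ap (x y : E) (u : ℚ) : HasSum (fun s => x s * y (u - s)) (Mu x y u) := by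
  have := (lp.evalCLM ℂ _ 1 u).hasSum ((ContinuousLinearMap.apply ℂ E y).hasSum
    (L_ap _ (fun s => L_norm (fun t => e (s + t)) fun _ => (e_norm _).le) x))
  refine this.congr_fun fun s => ?_
  have h2 := (lp.evalCLM ℂ _ 1 u).hasSum (L_ap (fun t => e (s + t)) (fun _ => (e_norm _).le) y)
  change _ = x s * (L (fun t => e (s + t)) (fun _ => (e_norm _).le) y) u
  change HasSum (fun t => y t * e (s + t) u) ((L (fun t => e (s + t)) (fun _ => (e_norm _).le) y) u) at h2
  rw [h2.unique (hasSum_single (u - s) fun t ht => by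
    rw [e_ap, if_neg fun a => ht (by rw [a, add_sub_cancel_left])]; simp), e_ap,
    if_pos (add_sub_cancel s u).symm, mul_one]

def B : Type := E

noncomputable instance : NormedCommRing B :=
  { (inferInstance : NormedAddCommGroup E) with
    mul := fun x y => Mu x y
    one := e 0
    left_distrib := fun (x y z : E) => map_add (Mu x) y z
    right_distrib := fun (x y z : E) => congrArg (· z) (map_add Mu x y)
    zero_mul := fun x => congrArg (· x) (map_zero Mu)
    mul_zero := fun x => map_zero (Mu x)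
    mul_assoc := Mu_assoc
    one_mul := Mu_one
    mul_one := fun x => (Mu_comm _ _).trans (Mu_one x)
    mul_comm := Mu_comm
    norm_mul_le := fun x y => ((Mu x).le_opNorm y).trans (mul_le_mul_of_nonneg_right
      ((Mu.le_opNorm x).trans (mul_le_of_le_one_left (norm_nonneg _) (L_norm _ _)))
      (norm_nonneg _)) }

noncomputable instance : Module ℂ B := (inferInstance : Module ℂ E)

noncomputable instance : NormedAlgebra ℂ B :=
  { Algebra.ofModule (R := ℂ) (A := B) (fun r x y => congrArg (· y) (map_smul Mu r x))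
      (fun r x y => map_smul (Mu x) r y) with
    norm_smul_le := fun r x => norm_smul_le r (show E from x) }

instance : CompleteSpace B := (inferInstance : CompleteSpace E)

instance : NormOneClass B := ⟨e_norm 0⟩

noncomputable def co (u : ℚ) : B →L[ℂ] ℂ := lp.evalCLM ℂ (fun _ : ℚ => ℂ) 1 u

theorem ext' {x y : B} (h : ∀ u, co u x = co u y) : x = y := lp.ext (funext h)

theorem hs (x : B) : HasSum (fun u => ‖co u x‖) ‖x‖ := sm1 x

theorem co_le (x : B) (u : ℚ) : ‖co u x‖ ≤ ‖x‖ := le_hasSum (hs x) u fun _ _ => norm_nonneg _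

theorem co_mul (x y : B) (u : ℚ) : HasSum (fun s => co s x * co (u - s) y) (co u (x * y)) :=
  Mu_ap x y u

noncomputable def dl (t : ℚ) : B := e t

theorem co_dl (t u : ℚ) : co u (dl t) = if u = t then 1 else 0 := e_ap t u

theorem dl_mul (s t : ℚ) : dl s * dl t = dl (s + t) := Mu_e s t

theorem dl_norm (t : ℚ) : ‖dl t‖ = 1 := e_norm t

theorem co_one (u : ℚ) : co u 1 = if u = 0 then 1 else 0 := e_ap 0 u

theorem co_dl_mul (t u : ℚ) (x : B) : co u (dl t * x) = co (u - t) x := by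
  refine (co_mul _ x u).unique ?_
  convert hasSum_single (f := fun s => co s (dl t) * co (u - s) x) t fun i hi => by
    simp [co_dl, hi]
  simp [co_dl]

noncomputable def mk (f : ℚ → ℂ) (h : Summable fun u => ‖f u‖) : B :=
  (⟨f, memℓp_gen (by simpa using h)⟩ : E)

theorem co_mk (f : ℚ → ℂ) (h : Summable fun u => ‖f u‖) (u : ℚ) : co u (mk f h) = f u := rfl

theorem nle {x y : B} {C : ℝ} (h : ∀ u, ‖co u y‖ ≤ C * ‖co u x‖) : ‖y‖ ≤ C * ‖x‖ :=
  hasSum_le h (hs y) ((hs x).mul_left C)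

open Classical in
noncomputable def ml (φ : ℚ → ℂ) (x : B) : B :=
  if h : Summable fun u => ‖φ u * co u x‖ then mk _ h else 0

theorem co_ml {φ : ℚ → ℂ} {C : ℝ} (h : ∀ u, ‖φ u‖ ≤ C) (x : B) (u : ℚ) :
    co u (ml φ x) = φ u * co u x := by
  rw [ml, dif_pos (((hs x).summable.mul_left C).of_nonneg_of_le (fun _ => norm_nonneg _)
    fun u => by rw [norm_mul]; gcongr; exact h u), co_mk]

open Classical in
noncomputable def cut (S : Set ℚ) (x : B) : B := ml (fun u => if u ∈ S then 1 else 0) x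

open Classical in
theorem co_cut (S : Set ℚ) (x : B) (u : ℚ) : co u (cut S x) = if u ∈ S then co u x else 0 := by
  rw [cut, co_ml (C := 1) fun u => by split_ifs <;> simp]; simp

theorem cut_le (S : Set ℚ) (x : B) : ‖cut S x‖ ≤ ‖x‖ :=
  (nle (C := 1) fun u => by rw [co_cut]; split_ifs <;> simp).trans_eq (one_mul _)

theorem cut_add (S : Set ℚ) (x y : B) : cut S (x + y) = cut S x + cut S y :=
  ext' fun u => by simp only [map_add, co_cut]; split_ifs <;> simp

def Sup (P : ℚ → Prop) (x : B) : Prop := ∀ u, co u x ≠ 0 → P u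

theorem Sup.mul {P Q R : ℚ → Prop} {x y : B} (hx : Sup P x) (hy : Sup Q y)
    (h : ∀ s t, P s → Q t → R (s + t)) : Sup R (x * y) := by
  intro u hu
  by_contra hc
  refine hu ((co_mul x y u).unique (hasSum_zero.congr_fun fun s => ?_))
  by_contra h2
  exact hc (add_sub_cancel s u ▸ h _ _ (hx _ (left_ne_zero_of_mul h2))
    (hy _ (right_ne_zero_of_mul h2)))

theorem Sup.add {P : ℚ → Prop} {x y : B} (hx : Sup P x) (hy : Sup P y) : Sup P (x + y) := by
  intro u hu
  by_contra hc
  exact hu (by rw [map_add, not_not.mp (mt (hx u) hc), not_not.mp (mt (hy u) hc), add_zero])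

theorem Sup.smul {P : ℚ → Prop} {x : B} (hx : Sup P x) (c : ℂ) : Sup P (c • x) :=
  fun u hu => hx u fun h => hu (by rw [map_smul, h, smul_zero])

theorem Sup.neg {P : ℚ → Prop} {x : B} (hx : Sup P x) : Sup P (-x) :=
  fun u hu => hx u fun h => hu (by rw [map_neg, h, neg_zero])

theorem Sup.mono {P Q : ℚ → Prop} {x : B} (hx : Sup P x) (h : ∀ u, P u → Q u) : Sup Q x :=
  fun u hu => h u (hx u hu)

theorem Sup.zero {P : ℚ → Prop} {x : B} (hx : Sup P x) {u : ℚ} (h : ¬P u) : co u x = 0 :=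
  not_not.mp (mt (hx u) h)

theorem sup_cut (S : Set ℚ) (x : B) : Sup (· ∈ S) (cut S x) := fun u hu => by
  by_contra h; exact hu (by rw [co_cut, if_neg h])

theorem Sup.cut' {P : ℚ → Prop} {x : B} (hx : Sup P x) (S : Set ℚ) :
    Sup (fun u => u ∈ S ∧ P u) (cut S x) := fun u hu =>
  ⟨sup_cut S x u hu, hx u fun h => hu (by rw [co_cut, h, ite_self])⟩

theorem sup_dl (t : ℚ) : Sup (· = t) (dl t) := fun u hu => by
  by_contra h; exact hu (by rw [co_dl, if_neg h])

theorem Sup.cut_eq {S : Set ℚ} {x : B} (hx : Sup (· ∈ S) x) : cut S x = x := ext' fun u => by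
  rw [co_cut]; split_ifs with h
  · rfl
  · exact (hx.zero h).symm

theorem Sup.cut_zero {S : Set ℚ} {x : B} (hx : Sup (· ∉ S) x) : cut S x = 0 := ext' fun u => by
  rw [co_cut]; split_ifs with h
  · exact hx.zero (not_not.mpr h)
  · rfl

def Rel (φ : ℚ → ℂ) (x y : B) : Prop := ∀ u, co u y = φ u * co u x

theorem Rel.mul {φ : ℚ → ℂ} (h : ∀ s t, φ (s + t) = φ s * φ t) {x y x' y' : B} (h1 : Rel φ x x')
    (h2 : Rel φ y y') : Rel φ (x * y) (x' * y') := fun u =>
  (co_mul x' y' u).unique (((co_mul x y u).mul_left (φ u)).congr_fun fun s => by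
    rw [h1, h2, show φ u = φ s * φ (u - s) by rw [← h, add_sub_cancel]]; ring)

theorem Rel.add {φ : ℚ → ℂ} {x y x' y' : B} (h1 : Rel φ x x') (h2 : Rel φ y y') :
    Rel φ (x + y) (x' + y') := fun u => by rw [map_add, map_add, h1, h2, mul_add]

theorem Rel.sub {φ : ℚ → ℂ} {x y x' y' : B} (h1 : Rel φ x x') (h2 : Rel φ y y') :
    Rel φ (x - y) (x' - y') := fun u => by rw [map_sub, map_sub, h1, h2, mul_sub]

theorem Rel.smul {φ : ℚ → ℂ} {x x' : B} (h1 : Rel φ x x') (c : ℂ) : Rel φ (c • x) (c • x') :=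
  fun u => by rw [map_smul, map_smul, h1, smul_eq_mul, smul_eq_mul]; ring

theorem Rel.uniq {φ : ℚ → ℂ} {x y z : B} (h1 : Rel φ x y) (h2 : Rel φ x z) : y = z :=
  ext' fun u => by rw [h1, h2]

theorem Rel.sup {φ : ℚ → ℂ} {x y : B} (h : Rel φ x y) {P : ℚ → Prop} (hx : Sup P x) : Sup P y :=
  fun u hu => hx u fun a => hu (by rw [h, a, mul_zero])

theorem Rel.hasSum {φ : ℚ → ℂ} {x y : ℕ → B} {X Y : B} (h : ∀ n, Rel φ (x n) (y n))
    (hx : HasSum x X) (hy : HasSum y Y) : Rel φ X Y := fun u =>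
  ((co u).hasSum hy).unique ((((co u).hasSum hx).mul_left (φ u)).congr_fun fun n => h n u)

theorem rel_dl (φ : ℚ → ℂ) (t : ℚ) : Rel φ (dl t) (φ t • dl t) := fun u => by
  rw [map_smul, co_dl]; split_ifs with h <;> simp [h]

abbrev IsD : B → B → Prop := Rel fun u => (u : ℂ)

theorem IsD.mul' {x y x' y' : B} (h1 : IsD x x') (h2 : IsD y y') :
    IsD (x * y) (x' * y + x * y') := fun u => by
  rw [map_add]
  exact ((co_mul x' y u).add (co_mul x y' u)).unique
    (((co_mul x y u).mul_left (u : ℂ)).congr_fun fun s => by rw [h1, h2]; push_cast; ring)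

theorem isD_one : IsD 1 0 := fun u => by rw [co_one]; split_ifs with h <;> simp [h]

theorem IsD.pow' {x x' : B} (h : IsD x x') (n : ℕ) :
    IsD (x ^ (n + 1)) (((n : ℂ) + 1) • (x ^ n * x')) := by
  induction n with
  | zero => simpa using h
  | succ n ih =>
    have := ih.mul' h
    rw [← pow_succ] at this
    convert this using 1
    push_cast
    rw [add_smul _ (1 : ℂ), one_smul, smul_mul_assoc]; congr 2; ring

end Pool.Agent.H.MP_89f94c_an
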