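import Pool.Agent.H.MP_89f94c_an.A

namespace Pool.Agent.H.MP_89f94c_an

open Filter Topology Set

set_option linter.unusedSectionVars false

section
variable {R : Type} [NormedCommRing R]

theorem nm {x y : R} {p q : ℝ} (hx : ‖x‖ ≤ p) (hy : ‖y‖ ≤ q) : ‖x * y‖ ≤ p * q :=
  (norm_mul_le x y).trans (mul_le_mul hx hy (norm_nonneg _) ((norm_nonneg _).trans hx))

theorem ns {x y : R} {p q : ℝ} (hx : ‖x‖ ≤ p) (hy : ‖y‖ ≤ q) : ‖x - y‖ ≤ p + q :=
  norm_sub_le_of_le hx hy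

theorem na {x y : R} {p q : ℝ} (hx : ‖x‖ ≤ p) (hy : ‖y‖ ≤ q) : ‖x + y‖ ≤ p + q :=
  norm_add_le_of_le hx hy

noncomputable def geo (u : R) : R := ∑' n : ℕ, (-u) ^ n

variable [CompleteSpace R]

theorem geo_hs {u : R} (h : ‖u‖ ≤ 1 / 2) : HasSum (fun n : ℕ => (-u) ^ n) (geo u) :=
  (summable_geometric_of_norm_lt_one (by rw [norm_neg]; linarith)).hasSum

theorem geo_mul {u : R} (h : ‖u‖ ≤ 1 / 2) : (1 + u) * geo u = 1 := by
  have := mul_neg_geom_series (-u) (by rw [norm_neg]; linarith)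
  rwa [sub_neg_eq_add] at this

variable [NormOneClass R]

theorem geo_le {u : R} (h : ‖u‖ ≤ 1 / 2) : ‖geo u‖ ≤ 2 :=
  tsum_of_norm_bounded hasSum_geometric_two fun n =>
    (norm_pow_le _ n).trans (by rw [norm_neg]; gcongr)

theorem ZA (T : R →+* R) (hT : ∀ x, ‖T x‖ ≤ ‖x‖) {a b c a1 b1 c1 V κ : R} {H ξ : ℝ} (h0 : 10 ≤ H)
    (e1 : a = b * c) (e2 : a1 = b1 * c + b * c1) (e3 : V * a1 = 1) (n1 : ‖V‖ ≤ H)
    (n2 : ‖b1 * c‖ ≤ H) (n3 : ‖b1 * c1‖ ≤ H) (n4 : ‖a1‖ ≤ H) (n5 : ‖T a - a‖ ≤ ξ)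
    (n6 : ‖T a1 - a1‖ ≤ ξ) (d : a ∣ T (b1 * c) - b1 * c - κ) (n7 : ‖V * κ‖ ≤ 1 / 4)
    (n8 : H ^ 3 * ξ ≤ 1 / 4) : ∃ x, a ∣ T (b1 * c) - b1 * c - x ∧ ‖x‖ ≤ H ^ 8 * ξ := by
  have ξ0 : 0 ≤ ξ := (norm_nonneg _).trans n5
  obtain ⟨ε, hε⟩ : ∃ ε, ε = V * (b1 * c) := ⟨_, rfl⟩
  have m1 : ‖ε‖ ≤ H * H := hε ▸ nm n1 n2
  have m2 : ‖T ε‖ ≤ H * H := (hT _).trans m1
  have m3 : ‖T (V * V * (b1 * c1))‖ ≤ H * H * H := (hT _).trans (nm (nm n1 n1) n3)
  have q1 : ε * (1 - ε) = a * (V * V * (b1 * c1)) := by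
    rw [hε, e1]; linear_combination (-(V * (b1 * c))) * e3 + V * V * (b1 * c) * e2
  have q2 : T ε * (1 - T ε) = T a * T (V * V * (b1 * c1)) := by
    simpa using congrArg T q1
  have q3 : b1 * c = ε * a1 := by rw [hε]; linear_combination (-(b1 * c)) * e3
  have q4 : T (b1 * c) = T ε * T a1 := by rw [q3, map_mul]
  have m4 : ‖V * κ - V * (T ε * (T a1 - a1))‖ ≤ 1 / 2 :=
    (ns n7 (nm n1 (nm m2 n6))).trans (by nlinarith)
  obtain ⟨k, hk⟩ : ∃ k, k = V * κ - V * (T ε * (T a1 - a1)) := ⟨_, rfl⟩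
  rw [← hk] at m4
  have m5 : ‖-(k * k)‖ ≤ 1 / 2 := by rw [norm_neg]; exact (nm m4 m4).trans (by norm_num)
  have g := geo_mul m5
  have m6 : ‖ε + ε + ε - 1 - T ε‖ ≤ H * H * 5 :=
    (ns (ns (na (na m1 m1) m1) norm_one.le) m2).trans (by nlinarith)
  refine ⟨-((T a - a) * T (V * V * (b1 * c1)) * (ε + ε + ε - 1 - T ε) * geo (-(k * k))) * a1 +
    T ε * (T a1 - a1), ?_, ?_⟩
  · rw [← Ideal.mem_span_singleton, ← Ideal.Quotient.eq_zero_iff_mem] at d ⊢
    have z : Ideal.Quotient.mk (Ideal.span {a}) a = 0 :=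
      Ideal.Quotient.eq_zero_iff_mem.mpr (Ideal.mem_span_singleton_self a)
    set π := Ideal.Quotient.mk (Ideal.span {a})
    rw [q4, q3] at d ⊢
    have r1 := congrArg π q1
    have r2 := congrArg π q2
    have r3 := congrArg π e3
    have r4 := congrArg π g
    have r5 := congrArg π hk
    generalize T (V * V * (b1 * c1)) = Q at *
    generalize geo (-(k * k)) = y at *
    simp only [map_mul, map_sub, map_add, map_one, map_neg, z] at r1 r2 r3 r4 r5 d ⊢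
    have r6 : π k = π (T ε) - π ε := by linear_combination r5 - π V * d + (π (T ε) - π ε) * r3
    have r7 : π k * (1 - π k * π k) = -(π (T a) * π Q * (3 * π ε - 1 - π (T ε))) := by
      rw [r6]
      linear_combination (3 * π (T ε) - 1 - π ε) * r1 + (1 + π (T ε) - 3 * π ε) * r2
    linear_combination π a1 * (π y * r7 - r6 - π k * r4)
  · refine (na (nm ((norm_neg _).trans_le (nm (nm (nm n5 m3) m6) (geo_le m5))) n4)
      (nm m2 n6)).trans ?_
    have h1 : H ^ 2 ≤ H ^ 7 := pow_le_pow_right₀ (by linarith) (by norm_num)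
    have h2 : 0 ≤ H ^ 6 := by positivity
    have h3 : H ^ 6 * 10 ≤ H ^ 7 := by rw [pow_succ H 6]; gcongr
    have h4 : H ^ 7 * 2 ≤ H ^ 8 := by rw [pow_succ H 7]; gcongr; linarith
    calc _ = (H ^ 6 * 10 + H ^ 2) * ξ := by ring
      _ ≤ _ := by gcongr; linarith

omit [NormOneClass R] in
theorem small_idem {a z : R} (h : ‖z‖ ≤ 1 / 2) (d : a ∣ z * z - z) : a ∣ z := by
  have := geo_mul (u := -z) (by rwa [norm_neg])
  convert d.mul_right (-geo (-z)) using 1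
  linear_combination (-z) * this

theorem sqrt1 [NormedAlgebra ℂ R] (v : R) (h : ‖v‖ ≤ 1 / 2) :
    ∃ z, ‖z‖ ≤ 1 / 2 ∧ (1 + z) * (1 + z) = 1 + v := by
  let f : R → R := fun z => (1 / 2 : ℂ) • (v - z * z)
  have n2 : ∀ x : R, ‖(1 / 2 : ℂ) • x‖ = 1 / 2 * ‖x‖ := fun x => by rw [norm_smul]; simp
  have hm : MapsTo f (Metric.closedBall 0 (1 / 2)) (Metric.closedBall 0 (1 / 2)) := fun z hz => by
    rw [mem_closedBall_zero_iff] at hz ⊢
    rw [n2]; linarith [ns h (nm hz hz)]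
  obtain ⟨z, h1, h2, -⟩ := ContractingWith.exists_fixedPoint' (K := 1 / 2)
    Metric.isClosed_closedBall.isComplete hm ⟨by norm_num, LipschitzWith.of_dist_le_mul (by
      rintro ⟨x, hx⟩ ⟨y, hy⟩
      rw [mem_closedBall_zero_iff] at hx hy
      change dist (f x) (f y) ≤ _ * dist x y
      rw [dist_eq_norm, dist_eq_norm, ← smul_sub, n2,
        show v - x * x - (v - y * y) = -(x + y) * (x - y) by ring]
      have := nm (norm_neg (x + y) ▸ na hx hy) (le_refl ‖x - y‖)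
      push_cast
      linarith)⟩ (Metric.mem_closedBall_self (by norm_num)) (edist_ne_top _ _)
  refine ⟨z, mem_closedBall_zero_iff.mp h1, ?_⟩
  have : z + z = v - z * z := by
    conv_lhs => rw [← show f z = z from h2, ← add_smul]
    norm_num
  linear_combination this

end

theorem rel_one {φ : ℚ → ℂ} (h0 : φ 0 = 1) : Rel φ 1 1 := by
  have := rel_dl φ 0
  rwa [h0, one_smul] at this

theorem Rel.geo {φ : ℚ → ℂ} (h : ∀ s t, φ (s + t) = φ s * φ t) (h0 : φ 0 = 1) {u v : B}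
    (h1 : Rel φ u v) (hu : ‖u‖ ≤ 1 / 2) (hv : ‖v‖ ≤ 1 / 2) : Rel φ (geo u) (geo v) := by
  refine Rel.hasSum (fun n => ?_) (geo_hs hu) (geo_hs hv)
  induction n with
  | zero => simpa using rel_one h0
  | succ n ih =>
    rw [pow_succ, pow_succ]
    exact ih.mul h (by simpa using h1.smul (-1))

theorem Sup.geo {u : B} (h : Sup (· ≤ 0) u) (hu : ‖u‖ ≤ 1 / 2) : Sup (· ≤ 0) (geo u) := by
  intro s hs
  by_contra hc
  refine hs (((co s).hasSum (geo_hs hu)).unique (hasSum_zero.congr_fun fun n => Sup.zero (P := (· ≤ 0)) ?_ hc))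
  induction n with
  | zero => exact (sup_dl 0).mono fun _ => le_of_eq
  | succ n ih => rw [pow_succ]; exact ih.mul h.neg fun _ _ => add_nonpos

theorem npow {u : B} (hu : ‖u‖ ≤ 1 / 2) (n : ℕ) : ‖(-u) ^ n‖ ≤ (1 / 2) ^ n :=
  (norm_pow_le _ n).trans (by rw [norm_neg]; gcongr)

theorem IsD.geo' {u v : B} (h : IsD u v) (hu : ‖u‖ ≤ 1 / 2) : ∃ w, IsD (geo u) w := by
  have h' : IsD (-u) (-v) := by simpa using h.smul (-1)
  have s1 : Summable fun n : ℕ => ((n : ℂ) + 1) • ((-u) ^ n * -v) := by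
    refine .of_norm_bounded (((summable_pow_mul_geometric_of_norm_lt_one (R := ℝ) 1
      (r := 1 / 2) (by norm_num)).add summable_geometric_two).mul_right ‖v‖) fun n => ?_
    rw [norm_smul, ← Nat.cast_succ, Complex.norm_natCast]
    push_cast
    calc _ ≤ ((n : ℝ) + 1) * ((1 / 2) ^ n * ‖v‖) := by
          gcongr; exact nm (npow hu n) (norm_neg v).le
      _ = _ := by ring
  have := (Rel.hasSum h'.pow' ((hasSum_nat_add_iff' 1).mpr (geo_hs hu)) s1.hasSum).add isD_one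
  exact ⟨_, by simpa using this⟩

theorem logL {x y x' y' ix iy ix' : B} (hx : IsD x x') (hy : IsD y y') (e1 : x * ix = 1)
    (e2 : y * iy = 1) (hi : IsD ix ix') (n : ‖y * ix - 1‖ ≤ 1 / 2) :
    ∃ g, ‖g‖ ≤ 2 * ‖y * ix - 1‖ ∧ IsD g (y' * iy - x' * ix) := by
  obtain ⟨v, hv⟩ : ∃ v, v = y * ix - 1 := ⟨_, rfl⟩
  have d1 : IsD (-v) (-(y' * ix + y * ix')) := by
    have := ((hy.mul' hi).sub isD_one).smul (-1)
    rwa [neg_one_smul, neg_one_smul, sub_zero, ← hv] at this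
  have d2 : x' * ix + x * ix' = 0 := (hx.mul' hi).uniq (e1 ▸ isD_one)
  rw [← hv] at n ⊢
  have b : ∀ k : ℕ, ‖-((k : ℂ) + 1)⁻¹ • (-v) ^ (k + 1)‖ ≤ (1 / 2) ^ k * ‖v‖ := fun k => by
    rw [norm_smul, norm_neg, norm_inv, ← Nat.cast_succ, Complex.norm_natCast, pow_succ]
    exact (mul_le_of_le_one_left (norm_nonneg _) (inv_le_one_of_one_le₀ (by simp))).trans
      (nm (npow n k) (norm_neg v).le)
  have s := hasSum_geometric_two.mul_right ‖v‖
  refine ⟨_, tsum_of_norm_bounded s b, ?_⟩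
  have := Rel.hasSum (fun k : ℕ => (d1.pow' k).smul (-((k : ℂ) + 1)⁻¹))
    (Summable.of_norm_bounded s.summable b).hasSum
    (((geo_hs n).mul_right (y' * ix + y * ix')).congr_fun fun k => by
      rw [smul_smul, neg_mul, inv_mul_cancel₀ (by exact_mod_cast k.succ_ne_zero),
        neg_one_smul]; ring)
  convert this using 1
  have g := geo_mul n
  rw [hv] at g ⊢
  generalize geo (y * ix - 1) = G at *
  have : G = x * iy := by linear_combination (-(G * y * iy)) * e1 + x * iy * g - G * e2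
  rw [this]
  linear_combination (-(y' * iy)) * e1 - x * ix' * e2 - d2

noncomputable def ex (r : ℝ) (u : ℚ) : ℂ := Real.exp (r * u)

theorem ex_add (r : ℝ) (s t : ℚ) : ex r (s + t) = ex r s * ex r t := by
  simp [ex, mul_add, Complex.exp_add]

theorem ex_zero (r : ℝ) : ex r 0 = 1 := by simp [ex]

theorem ex_mul (r s : ℝ) (u : ℚ) : ex r u * ex s u = ex (r + s) u := by
  simp [ex, add_mul, Complex.exp_add]

theorem ex_norm (r : ℝ) (u : ℚ) : ‖ex r u‖ = Real.exp (r * u) := by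
  rw [ex, Complex.norm_real, Real.norm_of_nonneg (Real.exp_pos _).le]

theorem ex0 (u : ℚ) : ex 0 u = 1 := by simp [ex]

noncomputable def A (δ : ℝ) : Subalgebra ℂ (B × B) where
  carrier := {p | Rel (ex (-δ)) p.1 p.2}
  mul_mem' := fun h1 h2 => Rel.mul (ex_add _) h1 h2
  add_mem' := fun h1 h2 => Rel.add h1 h2
  algebraMap_mem' := fun c => by
    simpa [Algebra.algebraMap_eq_smul_one] using (rel_one (ex_zero (-δ))).smul c

instance (δ : ℝ) : CompleteSpace (A δ) := by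
  refine IsClosed.completeSpace_coe (s := (A δ : Set (B × B))) (hs := ?_)
  have : (A δ : Set (B × B)) = ⋂ u, {p | co u p.2 = ex (-δ) u * co u p.1} := by
    ext p; exact (mem_iInter (s := fun u => {p : B × B | co u p.2 = ex (-δ) u * co u p.1})).symm
  rw [this]
  exact isClosed_iInter fun u => isClosed_eq (by fun_prop) (by fun_prop)

instance (δ : ℝ) : NormOneClass (A δ) := ⟨norm_one (α := B × B)⟩

theorem A.n1 {δ : ℝ} (p : A δ) : ‖p.1.1‖ ≤ ‖p‖ := norm_fst_le p.1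

theorem A.n2 {δ : ℝ} (p : A δ) : ‖p.1.2‖ ≤ ‖p‖ := norm_snd_le p.1

theorem A.nl {δ : ℝ} {p : A δ} {r : ℝ} (h1 : ‖p.1.1‖ ≤ r) (h2 : ‖p.1.2‖ ≤ r) : ‖p‖ ≤ r :=
  max_le h1 h2

theorem A.ext1 {δ : ℝ} {p q : A δ} (h : p.1.1 = q.1.1) : p = q :=
  Subtype.ext (Prod.ext h (Rel.uniq p.2 (h ▸ q.2)))

theorem A.nsup {δ E : ℝ} {s : ℚ} (hδ : 0 ≤ δ) (hE : Real.exp (δ * |(s : ℝ)|) ≤ E) {p : A δ}
    (h : Sup (s ≤ ·) p.1.1) : ‖p‖ ≤ E * ‖p.1.1‖ := by
  refine A.nl (le_mul_of_one_le_left (norm_nonneg _)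
    ((Real.one_le_exp (by positivity)).trans hE)) (nle fun u => ?_)
  rw [p.2 u, norm_mul, ex_norm]
  by_cases a : s ≤ u
  · gcongr
    refine le_trans (Real.exp_le_exp.mpr ?_) hE
    have : (s : ℝ) ≤ u := by exact_mod_cast a
    nlinarith [neg_abs_le (s : ℝ)]
  · simp [h.zero a]

theorem A.sq1 {δ : ℝ} (hδ : 0 < δ) {p : A δ} (h : p * p = 1) : p = 1 ∨ p = -1 := by
  have s : ∀ φ : ℚ → ℂ, (∀ u, ‖φ u‖ ≤ (2 / δ + 1) * (1 + Real.exp (-δ * u))) →
      Summable fun u => ‖φ u * co u p.1.1‖ := fun φ hφ =>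
    (((hs p.1.1).add (hs p.1.2)).summable.mul_left (2 / δ + 1)).of_nonneg_of_le
      (fun _ => norm_nonneg _) fun u => by
        rw [p.2 u, norm_mul, norm_mul, ex_norm]
        nlinarith [mul_le_mul_of_nonneg_right (hφ u) (norm_nonneg (co u p.1.1))]
  have k : ∀ u : ℝ, (|u| + 1) * Real.exp (-(δ / 2) * u) ≤
      (2 / δ + 1) * (1 + Real.exp (-δ * u)) := fun u => by
    have a1 : |u| + 1 ≤ (2 / δ + 1) * Real.exp (δ / 2 * |u|) := by
      have := Real.add_one_le_exp (δ / 2 * |u|)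
      have a : 2 / δ * (δ / 2 * |u|) = |u| := by field_simp
      have : 0 ≤ δ / 2 * |u| := by positivity
      have : 0 < 2 / δ := by positivity
      nlinarith
    refine (mul_le_mul_of_nonneg_right a1 (Real.exp_pos _).le).trans ?_
    rw [mul_assoc, ← Real.exp_add]
    gcongr
    rcases abs_cases u with ⟨a, -⟩ | ⟨a, -⟩ <;> rw [a]
    · simp [Real.exp_nonneg]
    · rw [show δ / 2 * -u + -(δ / 2) * u = -δ * u by ring]; linarith
  have s1 := s (ex (-(δ / 2))) fun u => by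
    rw [ex_norm]
    exact le_trans (le_mul_of_one_le_left (Real.exp_pos _).le (by simp)) (k u)
  have s2 := s (fun u => u * ex (-(δ / 2)) u) fun u => by
    rw [norm_mul, ex_norm, Complex.norm_ratCast]
    exact le_trans (by gcongr; simp) (k u)
  have r1 : Rel (ex (-(δ / 2))) p.1.1 (mk _ s1) := fun u => rfl
  have r2 : IsD (mk _ s1) (mk _ s2) := fun u => mul_assoc _ _ _
  have h1 : p.1.1 * p.1.1 = 1 := congrArg (·.1.1) h
  have h2 : mk _ s1 * mk _ s1 = 1 := (r1.mul (ex_add _) r1).uniq (by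
    rw [h1]; exact rel_one (ex_zero _))
  have h3 := (r2.mul' r2).uniq (h2 ▸ isD_one)
  have h4 : (2 : ℂ) • mk _ s2 = 0 := by
    rw [two_smul]; linear_combination mk _ s1 * h3 - (mk _ s2 + mk _ s2) * h2
  have h5 : p.1.1 = co 0 p.1.1 • 1 := ext' fun u => by
    rw [map_smul, co_one]
    split_ifs with a
    · simp [a]
    · have := congrArg (co u) h4
      rw [map_smul, co_mk] at this
      simpa [a, ex] using this
  have h6 := congrArg (co 0) h1
  rw [h5, smul_mul_smul_comm, mul_one, map_smul, co_one] at h6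
  rcases mul_self_eq_one_iff.mp (by simpa using h6) with a | a
  · exact .inl (A.ext1 (by rw [h5, a, one_smul]; rfl))
  · exact .inr (A.ext1 (by rw [h5, a, neg_smul, one_smul]; rfl))

theorem SA {δ : ℝ} (hδ : 0 < δ) {a b c a1 b1 c1 V p ν : A δ} (e1 : a = b * c)
    (e2 : a1 = b1 * c + b * c1) (e3 : V * a1 = 1) (d : a ∣ V * (b1 * c) - (p + ν))
    (n1 : ‖ν‖ ≤ 1 / 4) (n2 : ‖p * p - p‖ ≤ 1 / 8) : a ∣ c ∨ a ∣ b := by
  obtain ⟨z, h1, h2⟩ := sqrt1 ((4 : ℂ) • (p * p - p)) (by rw [norm_smul]; simp; linarith)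
  have g := geo_mul h1
  have t : ∀ x : A δ, x + x = z ∨ x + x = -z → ‖x‖ ≤ 1 / 4 := fun x hx => by
    have : ‖(2 : ℂ) • x‖ ≤ 1 / 2 := by
      rw [two_smul]; rcases hx with a | a <;> simpa [a] using h1
    rw [norm_smul] at this
    simp at this; linarith
  have h3 : (4 : ℂ) • (p * p - p) = 4 * (p * p - p) := by
    rw [Algebra.smul_def, map_ofNat]
  have q : a ∣ V * (b1 * c) * (V * (b1 * c)) - V * (b1 * c) := ⟨-(V * V * (b1 * c1)), by
    rw [e1]; linear_combination (V * (b1 * c)) * e3 - V * V * (b1 * c) * e2⟩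
  have q2 : a ∣ (p + ν) * (p + ν) - (p + ν) := by
    convert q.sub (d.mul_right (V * (b1 * c) + (p + ν) - 1)) using 1; ring
  rcases A.sq1 hδ (p := (1 - p - p) * geo z) (by
    rw [h3] at h2
    linear_combination (geo z * (1 + z) + 1) * g - geo z * geo z * h2) with h | h
  · have := small_idem ((na (t p (.inr (by linear_combination (1 - p - p) * g - (1 + z) * h)))
      n1).trans (by norm_num)) q2
    left
    convert ((d.add this).mul_right c).add (Dvd.intro (V * c1) rfl) using 1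
    rw [e1]; linear_combination (-c) * e3 + V * c * e2
  · have := small_idem (a := a) (z := 1 - p - ν) ((ns (t (1 - p) (.inr (by
      linear_combination (1 + z) * h - (1 - p - p) * g))) n1).trans (by norm_num))
      (by convert q2 using 1; ring)
    right
    convert ((this.sub d).mul_right b).add (Dvd.intro (V * b1) rfl) using 1
    rw [e1]; ring

end Pool.Agent.H.MP_89f94c_an
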