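import Pool.Agent.H.MP_89f94c_an.B

namespace Pool.Agent.H.MP_89f94c_an

open Filter Topology Set

noncomputable def em (σ : ℝ) (f : B) : B := ml (fun u => if 0 < u then ex (-σ) u else 0) f

noncomputable def emD (σ : ℝ) (f : B) : B := ml (fun u => if 0 < u then u * ex (-σ) u else 0) f

theorem xe (σ u : ℝ) (h : 0 < σ) : u * Real.exp (-σ * u) ≤ σ⁻¹ := by
  have := Real.add_one_le_exp (σ * u)
  rw [neg_mul, Real.exp_neg, ← div_eq_mul_inv, div_le_iff₀ (Real.exp_pos _), ← div_eq_inv_mul,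
    le_div_iff₀ h]
  linarith

section
variable {σ : ℝ} (h : 0 < σ)
include h

theorem exle {u : ℚ} (a : 0 < u) : ‖ex (-σ) u‖ ≤ 1 := by
  rw [ex_norm, Real.exp_le_one_iff, neg_mul, neg_nonpos]; positivity

theorem exle2 {u : ℚ} (a : 0 < u) : ‖u * ex (-σ) u‖ ≤ σ⁻¹ := by
  rw [norm_mul, ex_norm, Complex.norm_ratCast, abs_of_pos (by positivity)]; exact xe _ _ h

theorem co_em (f : B) (u : ℚ) : co u (em σ f) = if 0 < u then ex (-σ) u * co u f else 0 := by
  rw [em, co_ml (C := 1) fun u => by split_ifs with a; exacts [exle h a, by simp]]; simp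

theorem co_emD (f : B) (u : ℚ) : co u (emD σ f) = if 0 < u then u * ex (-σ) u * co u f else 0 := by
  rw [emD, co_ml (C := σ⁻¹) fun u => by split_ifs with a; exacts [exle2 h a, by simp [h.le]]]; simp

theorem em_le (f : B) : ‖em σ f‖ ≤ ‖f‖ :=
  (nle (C := 1) fun u => by
    rw [co_em h]; split_ifs with a
    · rw [norm_mul]; gcongr; exact exle h a
    · simp).trans_eq (one_mul _)

theorem emD_le (f : B) {N : ℝ} (h0 : 0 ≤ N) (hN : N ≤ σ) : ‖(N : ℂ) • emD σ f‖ ≤ ‖f‖ := by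
  have : ‖emD σ f‖ ≤ σ⁻¹ * ‖f‖ := nle fun u => by
    rw [co_emD h]; split_ifs with a
    · rw [norm_mul]; gcongr; exact exle2 h a
    · simp only [norm_zero]; positivity
  rw [norm_smul, Complex.norm_real, Real.norm_of_nonneg h0]
  calc _ ≤ σ * (σ⁻¹ * ‖f‖) := by gcongr
    _ = _ := by field_simp

theorem em_isD (f : B) : IsD (em σ f) (emD σ f) := fun u => by
  rw [co_em h, co_emD h]; split_ifs <;> simp [mul_assoc]

theorem em_rel {f : B} (hf : Sup (0 < ·) f) : Rel (ex (-σ)) f (em σ f) := fun u => by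
  rw [co_em h]; split_ifs with a
  · rfl
  · rw [hf.zero a, mul_zero]

theorem em_mul {f g : B} (hf : Sup (0 < ·) f) (hg : Sup (0 < ·) g) :
    em σ (f * g) = em σ f * em σ g :=
  (em_rel h (hf.mul hg fun _ _ => add_pos)).uniq ((em_rel h hf).mul (ex_add _) (em_rel h hg))

theorem em_add (f g : B) : em σ (f + g) = em σ f + em σ g := ext' fun u => by
  simp only [map_add, co_em h]; split_ifs <;> simp [mul_add]

theorem emD_add (f g : B) : emD σ (f + g) = emD σ f + emD σ g := ext' fun u => by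
  simp only [map_add, co_emD h]; split_ifs <;> simp [mul_add]

theorem em_sub (f g : B) : em σ (f - g) = em σ f - em σ g := ext' fun u => by
  simp only [map_sub, co_em h]; split_ifs <;> simp [mul_sub]

theorem emD_sub (f g : B) : emD σ (f - g) = emD σ f - emD σ g := ext' fun u => by
  simp only [map_sub, co_emD h]; split_ifs <;> simp [mul_sub]

theorem em_sup {P : ℚ → Prop} {f : B} (hf : Sup P f) : Sup (fun u => 0 < u ∧ P u) (em σ f) :=
  fun u hu => by
    rw [co_em h] at hu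
    split_ifs at hu with a
    exacts [⟨a, hf u (right_ne_zero_of_mul hu)⟩, absurd rfl hu]

theorem em_rel2 {δ : ℝ} (h2 : 0 ≤ δ) (f : B) : Rel (ex (-δ)) (em σ f) (em (σ + δ) f) := fun u => by
  rw [co_em h, co_em (by linarith)]; split_ifs
  · rw [← mul_assoc, ex_mul]; congr 2; ring
  · simp

theorem emD_rel2 {δ : ℝ} (h2 : 0 ≤ δ) (f : B) : Rel (ex (-δ)) (emD σ f) (emD (σ + δ) f) :=
  fun u => by rw [em_isD h f u, em_isD (by linarith) f u, em_rel2 h h2]; ring

theorem em_far {f : B} {G : ℝ} (hG : 0 < G) (hf : Sup (fun u => G ≤ σ * u) f) :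
    ‖em σ f‖ ≤ G⁻¹ * ‖f‖ ∧ ‖(σ : ℂ) • emD σ f‖ ≤ 4 * G⁻¹ * ‖f‖ := by
  have k : ∀ x : ℝ, G ≤ x → Real.exp (-x) ≤ G⁻¹ := fun x hx => by
    rw [Real.exp_neg]; gcongr; linarith [Real.add_one_le_exp x]
  refine ⟨nle fun u => ?_, nle fun u => ?_⟩
  · rw [co_em h]
    by_cases b : G ≤ σ * u
    · split_ifs
      · rw [norm_mul, ex_norm, neg_mul]; gcongr; exact k _ b
      · simp only [norm_zero]; positivity
    · simp [hf.zero b]
  · rw [map_smul, co_emD h]
    by_cases b : G ≤ σ * u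
    · split_ifs with a
      · rw [smul_eq_mul, ← mul_assoc, norm_mul]
        gcongr
        rw [norm_mul, norm_mul, ex_norm, Complex.norm_ratCast, abs_of_pos (by positivity),
          Complex.norm_real, Real.norm_of_nonneg h.le, show -σ * u = -(σ / 2) * u + -(σ * u / 2) by
          ring, Real.exp_add, ← mul_assoc (u : ℝ)]
        have h1 := xe (σ / 2) u (by positivity)
        have h2 : Real.exp (-(σ * u / 2)) ≤ (G / 2)⁻¹ := by
          rw [Real.exp_neg]; gcongr; linarith [Real.add_one_le_exp (σ * u / 2)]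
        calc _ ≤ σ * ((σ / 2)⁻¹ * (G / 2)⁻¹) := by gcongr
          _ = _ := by field_simp; norm_num
      · simp only [smul_zero, norm_zero]; positivity
    · simp [hf.zero b]

theorem em_dl {t : ℚ} (ht : 0 < t) (γ : ℂ) : em σ (γ • dl t) = (γ * ex (-σ) t) • dl t :=
  (em_rel h (((sup_dl t).smul γ).mono fun _ a => a ▸ ht)).uniq
    (by rw [mul_smul]; exact (rel_dl _ t).smul γ)

end

noncomputable def ψ (n : ℝ) (u : ℚ) : ℂ := Complex.exp (Complex.I * (2 * Real.pi * (n * u) : ℝ))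

theorem ψ_norm (n : ℝ) (u : ℚ) : ‖ψ n u‖ = 1 := Complex.norm_exp_I_mul_ofReal _

theorem ψ_add (n : ℝ) (s t : ℚ) : ψ n (s + t) = ψ n s * ψ n t := by
  simp [ψ, mul_add, Complex.exp_add]

theorem T_rel' (n : ℝ) (x : B) : Rel (ψ n) x (ml (ψ n) x) := co_ml (fun u => (ψ_norm n u).le) x

noncomputable def T (n : ℝ) : B →+* B where
  toFun := ml (ψ n)
  map_one' := (T_rel' n 1).uniq (rel_one (by simp [ψ]))
  map_mul' x y := (T_rel' n _).uniq ((T_rel' n x).mul (ψ_add n) (T_rel' n y))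
  map_zero' := ext' fun u => by rw [T_rel' n 0 u]; simp
  map_add' x y := (T_rel' n _).uniq ((T_rel' n x).add (T_rel' n y))

theorem co_T (n : ℝ) (x : B) (u : ℚ) : co u (T n x) = ψ n u * co u x := T_rel' n x u

theorem T_le (n : ℝ) (x : B) : ‖T n x‖ ≤ ‖x‖ :=
  (nle (C := 1) fun u => by rw [co_T, norm_mul, ψ_norm]).trans_eq (one_mul _)

theorem Rel.T {φ : ℚ → ℂ} {x y : B} (h : Rel φ x y) (n : ℝ) : Rel φ (T n x) (T n y) :=
  fun u => by rw [co_T, co_T, h]; ring

theorem T_smul (n : ℝ) (c : ℂ) (x : B) : T n (c • x) = c • T n x :=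
  (T_rel' n _).uniq ((T_rel' n x).smul c)

theorem T_em {σ : ℝ} (h : 0 < σ) (n : ℝ) (f : B) : T n (em σ f) = em σ (T n f) := ext' fun u => by
  rw [co_T, co_em h, co_em h, co_T]; split_ifs <;> ring

theorem T_emD {σ : ℝ} (h : 0 < σ) (n : ℝ) (f : B) : T n (emD σ f) = emD σ (T n f) :=
  ((em_isD h f).T n).uniq (T_em h n f ▸ em_isD h _)

noncomputable def TA (n δ : ℝ) : A δ →+* A δ :=
  (((T n).prodMap (T n)).comp (A δ).val.toRingHom).codRestrict (A δ) fun p => Rel.T p.2 n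

theorem TA_le (n δ : ℝ) (p : A δ) : ‖TA n δ p‖ ≤ ‖p‖ :=
  A.nl ((T_le n _).trans (A.n1 p)) ((T_le n _).trans (A.n2 p))

noncomputable def Ph {δ : ℝ} (α α' : B) (f : A δ) (u : ℚ) : ℂ :=
  co u (f.1.1 * α) - ex δ u * co u (f.1.2 * α')

theorem Ph_dvd {δ : ℝ} {α α' : B} {a f g : A δ} (h1 : a.1.1 * α = 1) (h2 : a.1.2 * α' = 1)
    (d : a ∣ f - g) (u : ℚ) : Ph α α' f u = Ph α α' g u := by
  obtain ⟨q, hq⟩ := d
  have e1 : f.1.1 - g.1.1 = a.1.1 * q.1.1 := congrArg (·.1.1) hq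
  have e2 : f.1.2 - g.1.2 = a.1.2 * q.1.2 := congrArg (·.1.2) hq
  rw [Ph, Ph, show f.1.1 * α = g.1.1 * α + q.1.1 by linear_combination α * e1 + q.1.1 * h1,
    show f.1.2 * α' = g.1.2 * α' + q.1.2 by linear_combination α' * e2 + q.1.2 * h2, map_add,
    map_add, q.2 u, mul_add, ← mul_assoc, ex_mul, add_neg_cancel, ex0]
  ring

theorem Rec {δ E : ℝ} {s t : ℚ} (hδ : 0 ≤ δ) (hE : Real.exp (δ * |(s : ℝ)|) ≤ E) {α α' p q Y : B}
    {a : A δ} (h1 : a.1.1 * α = 1) (h2 : a.1.2 * α' = 1) (e : a.1.1 = p + q)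
    (sp : Sup (· ≤ t) p) (sa : Sup (0 < ·) a.1.2) (f : A δ)
    (hY : ∀ u ∈ Ico (s - t) s, co u Y = Ph α α' f u) :
    ∃ (κ : A δ) (r : B), a ∣ f - κ ∧ κ.1.1 = cut (Ioi s) (p * cut (Ico (s - t) s) Y) + r ∧
      ‖r‖ ≤ ‖q‖ * (‖f.1.1 * α‖ + E * ‖f.1.2 * α'‖) ∧ Sup (s < ·) κ.1.1 := by
  have E0 : 0 ≤ E := (Real.exp_pos _).le.trans hE
  have b1 : ∀ u : ℚ, ‖if u < s then ex δ u else 0‖ ≤ E := fun u => by
    split_ifs with c
    · rw [ex_norm]
      refine le_trans (Real.exp_le_exp.mpr ?_) hE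
      have : (u : ℝ) < s := by exact_mod_cast c
      nlinarith [le_abs_self (s : ℝ)]
    · simpa using E0
  have b2 : ∀ u : ℚ, ‖if u < s then 0 else ex (-δ) u‖ ≤ E := fun u => by
    split_ifs with c
    · simpa using E0
    · rw [ex_norm]
      refine le_trans (Real.exp_le_exp.mpr ?_) hE
      have : (s : ℝ) ≤ u := by exact_mod_cast not_lt.mp c
      nlinarith [neg_abs_le (s : ℝ)]
  obtain ⟨y, hy⟩ : ∃ y, y = f.1.1 * α := ⟨_, rfl⟩
  obtain ⟨y', hy'⟩ : ∃ y, y = f.1.2 * α' := ⟨_, rfl⟩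
  simp only [Ph] at hY
  rw [← hy, ← hy'] at hY ⊢
  let Q : A δ := ⟨(cut (Ici s) y + ml (fun u => if u < s then ex δ u else 0) y',
    ml (fun u => if u < s then 0 else ex (-δ) u) y + cut (Iio s) y'), fun u => by
      simp only [map_add, co_cut, co_ml b1, co_ml b2, mem_Ici, mem_Iio, ← not_lt]
      by_cases c : u < s <;> simp [c, ← mul_assoc, ex_mul, ex0]⟩
  let Z := cut (Iio s) y - ml (fun u => if u < s then ex δ u else 0) y'
  have k1 : (f - a * Q).1.1 = a.1.1 * Z := by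
    have : y = cut (Ici s) y + cut (Iio s) y := ext' fun u => by
      simp only [map_add, co_cut, mem_Ici, mem_Iio, ← not_lt]; by_cases c : u < s <;> simp [c]
    change f.1.1 - a.1.1 * (cut (Ici s) y + _) = _
    linear_combination a.1.1 * this - a.1.1 * hy - f.1.1 * h1
  have k2 : Sup (s < ·) (f - a * Q).1.1 := by
    have : (f - a * Q).1.2 = a.1.2 * (y' - Q.1.2) := by
      change f.1.2 - a.1.2 * Q.1.2 = _
      linear_combination -a.1.2 * hy' - f.1.2 * h2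
    have k : Sup (s < ·) (f - a * Q).1.2 := this ▸ sa.mul (Q := (s ≤ ·)) (fun u hu => by
      by_contra c
      exact hu (by simp [Q, co_cut, co_ml b2, not_le.mp c])) fun _ _ _ _ => by linarith
    exact fun u hu => k u (by rw [(f - a * Q).2 u]; exact mul_ne_zero (by simp [ex]) hu)
  refine ⟨f - a * Q, cut (Ioi s) (q * Z), ⟨Q, by ring⟩, ?_, (cut_le _ _).trans (nm le_rfl
    (ns (cut_le _ _) (nle fun u => by rw [co_ml b1, norm_mul]; gcongr; exact b1 u))), k2⟩
  have k3 : Z = cut (Ico (s - t) s) Y + cut (Iio (s - t)) Z := ext' fun u => by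
    by_cases c : u < s - t
    · simp [co_cut, c, not_le.mpr c]
    · by_cases d : u < s
      · simp [co_cut, c, d, not_lt.mp c, hY u ⟨not_lt.mp c, d⟩, Z, co_ml b1]
      · simp [co_cut, c, d, Z, co_ml b1]
  rw [← Sup.cut_eq (S := Ioi s) k2, k1, e, add_mul, cut_add]
  conv_lhs => rw [k3, mul_add, cut_add, ← k3, Sup.cut_zero (S := Ioi s)
    (sp.mul (sup_cut (Iio (s - t)) Z) fun u v (a : u ≤ t) (b : v < s - t) (c : s < u + v) => by
      linarith), add_zero]

theorem decay {δ c : ℝ} {x y : B} (hδ : 0 ≤ δ) (h : Rel (ex (-δ)) x y) {S : Set ℚ}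
    (hS : ∀ u ∈ S, (u : ℝ) ≤ -c) : ‖cut S x‖ ≤ Real.exp (-(δ * c)) * ‖y‖ := nle fun u => by
  rw [co_cut]; split_ifs with a
  · rw [h u, norm_mul, ex_norm, ← mul_assoc, ← Real.exp_add]
    exact le_mul_of_one_le_left (norm_nonneg _) (Real.one_le_exp (by nlinarith [hS u a]))
  · simp only [norm_zero]; positivity

end Pool.Agent.H.MP_89f94c_an
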