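import Pool.Agent.H.MP_89f94c_an.C

namespace Pool.Agent.H.MP_89f94c_an

open Filter Topology Set

section
variable {R : Type} [NormedCommRing R] {H τ : ℝ} {m n : ℕ}

theorem mo {x y : R} (hx : ‖x‖ ≤ H ^ m * 1) (hy : ‖y‖ ≤ H ^ n * τ) : ‖x * y‖ ≤ H ^ (m + n) * τ :=
  (nm hx hy).trans_eq (by ring)

theorem up (h : 2 ≤ H) (h0 : 0 ≤ τ) {r : ℝ} (hr : r ≤ H ^ m * τ) (n : ℕ) (hn : m ≤ n := by omega) :
    r ≤ H ^ n * τ :=
  hr.trans (mul_le_mul_of_nonneg_right (pow_le_pow_right₀ (by linarith) hn) h0)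

theorem ad (h : 2 ≤ H) (h0 : 0 ≤ τ) {p q : ℝ} (hp : p ≤ H ^ m * τ) (hq : q ≤ H ^ n * τ) :
    p + q ≤ H ^ (max m n + 1) * τ := by
  have a := up h h0 hp (max m n)
  have b := up h h0 hq (max m n)
  have : 0 ≤ H ^ max m n * τ := by positivity
  rw [pow_succ]; nlinarith

theorem ao (h : 2 ≤ H) (h0 : 0 ≤ τ) {x y : R} (hx : ‖x‖ ≤ H ^ m * τ) (hy : ‖y‖ ≤ H ^ n * τ) :
    ‖x + y‖ ≤ H ^ (max m n + 1) * τ := (norm_add_le x y).trans (ad h h0 hx hy)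

theorem so (h : 2 ≤ H) (h0 : 0 ≤ τ) {x y : R} (hx : ‖x‖ ≤ H ^ m * τ) (hy : ‖y‖ ≤ H ^ n * τ) :
    ‖x - y‖ ≤ H ^ (max m n + 1) * τ := (norm_sub_le x y).trans (ad h h0 hx hy)

theorem sc (h : 2 ≤ H) {r s E : ℝ} (hE : E ≤ H) (h0 : 0 ≤ s) (hr : r ≤ E * s)
    (hs : s ≤ H ^ m * τ) : r ≤ H ^ (m + 1) * τ :=
  hr.trans ((mul_le_mul hE hs h0 (by linarith)).trans_eq (by ring))

theorem o1 {r : ℝ} (h : r ≤ H) : r ≤ H ^ 1 * 1 := by simpa using h

theorem o0 {r : ℝ} (h : r ≤ τ) : r ≤ H ^ 0 * τ := by simpa using h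

end

noncomputable def pr {N : ℝ} (h : 0 < N) (f : B) : A (255 * N) :=
  ⟨(em N f, em (N + 255 * N) f), em_rel2 h (by positivity) f⟩

noncomputable def prD {N : ℝ} (h : 0 < N) (f : B) : A (255 * N) :=
  ⟨((N : ℂ) • emD N f, (N : ℂ) • emD (N + 255 * N) f), (emD_rel2 h (by positivity) f).smul _⟩

theorem pr_le {N : ℝ} (h : 0 < N) (f : B) : ‖pr h f‖ ≤ ‖f‖ :=
  A.nl (em_le h f) (em_le (by positivity) f)

theorem prD_le {N : ℝ} (h : 0 < N) (f : B) : ‖prD h f‖ ≤ ‖f‖ :=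
  A.nl (emD_le h f h.le le_rfl) (emD_le (by positivity) f h.le (by linarith))

noncomputable def be (b c : B) (σ : ℝ) (α : B) : B := emD σ b * em σ c * α

structure Zn (a b c : B) (N : ℝ) (h : 0 < N) (t : ℚ) (H θ δ : ℝ) (α α' α'' : B)
    (V : A (255 * N)) : Prop where
  Nt : N * t = 1
  pb : Sup (0 < ·) b
  pc : Sup (0 < ·) c
  e : a = b * c
  hH : 10 ^ 5 * Real.exp 255 ≤ H
  nbc : 2 * (‖b‖ * ‖c‖) ≤ H
  nA : ‖a‖ ≤ 2
  i1 : em N a * α = 1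
  i2 : em (N + 255 * N) a * α' = 1
  rel : Rel (ex (-δ)) α' α''
  d0 : 0 ≤ δ
  n1 : ‖α‖ ≤ H
  n2 : ‖α'‖ ≤ H
  n3 : ‖α''‖ ≤ H
  v1 : V * (prD h a - pr h a) = 1
  v2 : ‖V‖ ≤ H
  v3 : ‖V‖ * ‖cut (Iic t) a‖ ≤ 200
  sh : ‖em N (cut (Ioi t) a)‖ ≤ θ
  dec : Real.exp (-(δ * (t / 2))) ≤ θ
  Hθ : H ^ 30 * θ ≤ 1

variable {a b c : B} {N : ℝ} {h : 0 < N} {t : ℚ} {H θ δ : ℝ} {α α' α'' : B} {V : A (255 * N)}

theorem Zn.E1 (Z : Zn a b c N h t H θ δ α α' α'' V) : Real.exp 255 ≤ H ∧ 10 ^ 5 ≤ H ∧ 0 ≤ θ ∧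
    (0 : ℝ) < t ∧ ∀ r, r ≤ H ^ 29 * θ → r ≤ 1 / 10 ^ 5 := by
  have e1 : 1 ≤ Real.exp 255 := Real.one_le_exp (by norm_num)
  have e2 := Z.hH
  have e3 : 0 ≤ θ := (norm_nonneg _).trans Z.sh
  have e4 : 10 ^ 5 ≤ H := by linarith
  refine ⟨by linarith, e4, e3, (mul_pos_iff_of_pos_left h).mp (Z.Nt ▸ one_pos), fun r hr => ?_⟩
  have := Z.Hθ
  have : 0 ≤ H ^ 29 * θ := by positivity
  nlinarith

theorem Zn.alg (Z : Zn a b c N h t H θ δ α α' α'' V) : pr h a = pr h b * pr h c ∧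
    prD h a - pr h a = prD h b * pr h c + pr h b * (prD h c - pr h c) ∧
    em N a = em N (cut (Iic t) a) + em N (cut (Ioi t) a) := by
  have e1 : em N a = em N b * em N c := Z.e ▸ em_mul h Z.pb Z.pc
  refine ⟨A.ext1 e1, A.ext1 ?_, ?_⟩
  · have := (em_isD h a).uniq (e1 ▸ (em_isD h b).mul' (em_isD h c))
    change (N : ℂ) • emD N a - em N a = (N : ℂ) • emD N b * em N c +
      em N b * ((N : ℂ) • emD N c - em N c)
    rw [this, e1, smul_add, smul_mul_assoc, mul_sub, mul_smul_comm]; ring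
  · rw [← em_add h]; congr 1
    exact ext' fun u => by
      simp only [map_add, co_cut, mem_Iic, mem_Ioi, ← not_le]; by_cases c : u ≤ t <;> simp [c]

theorem ml_le {φ : ℚ → ℂ} {C : ℝ} (h : ∀ u, ‖φ u‖ ≤ C) (x : B) : ‖ml φ x‖ ≤ C * ‖x‖ :=
  nle fun u => by rw [co_ml h, norm_mul]; gcongr; exact h u

theorem Zn.φ (Z : Zn a b c N h t H θ δ α α' α'' V) (u : ℚ) :
    ‖if u ≤ t then ex (255 * N) u else 0‖ ≤ Real.exp 255 := by
  split_ifs with c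
  · rw [ex_norm, Real.exp_le_exp]
    have : (u : ℝ) ≤ t := by exact_mod_cast c
    nlinarith [Z.Nt]
  · simp [Real.exp_nonneg]

theorem num1 {H θ E v p g η N k x : ℝ} (E2 : 10 ^ 5 ≤ H) (θ0 : 0 ≤ θ) (E1 : E ≤ H) (E0 : 0 ≤ E)
    (fin : ∀ r, r ≤ H ^ 29 * θ → r ≤ 1 / 10 ^ 5) (v0 : 0 ≤ v) (p0 : 0 ≤ p) (v2 : v ≤ H)
    (v3 : v * p ≤ 200) (g1 : g ≤ η) (g0 : 0 ≤ g) (k1 : N * k ≤ θ) (x3 : η * E * 10 ^ 5 ≤ 1)
    (hx : x ≤ E * (p * (18 * g + 9 * N * k + H ^ 3 * θ + H ^ 3 * θ + H ^ 3 * θ) + H ^ 5 * θ)) :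
    v * x ≤ 1 / 4 := by
  have H2 : 2 ≤ H := by linarith
  have a3 : 9 * θ + H ^ 3 * θ + H ^ 3 * θ + H ^ 3 * θ ≤ H ^ 6 * θ := ad H2 θ0 (ad H2 θ0 (ad H2 θ0
    (sc H2 (by linarith) θ0 le_rfl (o0 le_rfl)) le_rfl) le_rfl) le_rfl
  have a4 := fin _ (up H2 θ0 (sc H2 E1 (by positivity) le_rfl (ad H2 θ0
    (sc H2 (show (200 : ℝ) ≤ H by linarith) (by positivity) le_rfl (le_refl (H ^ 6 * θ)))
    (sc H2 le_rfl (by positivity) le_rfl (le_refl (H ^ 5 * θ))))) 29)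
  have η0 : 0 ≤ η := g0.trans g1
  calc _ ≤ v * (E * (p * (18 * η + H ^ 6 * θ) + H ^ 5 * θ)) := by
        gcongr; refine hx.trans ?_; gcongr E * (p * ?_ + _); linarith
    _ = E * (v * p * (18 * η + H ^ 6 * θ) + v * (H ^ 5 * θ)) := by ring
    _ ≤ E * (200 * (18 * η + H ^ 6 * θ) + H * (H ^ 5 * θ)) := by gcongr
    _ ≤ _ := by linarith

set_option maxHeartbeats 400000 in
theorem Zn.step (Z : Zn a b c N h t H θ δ α α' α'' V) {n ξ η : ℝ} {g k : B}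
    (x1 : ‖T n a - a‖ ≤ ξ) (x2 : ξ ≤ θ) (x3 : η * Real.exp 255 * 10 ^ 5 ≤ 1) (g1 : ‖g‖ ≤ η)
    (k1 : N * ‖k‖ ≤ θ) (P : ∀ u < 0, ex N u * co u (T n (be b c N α) - be b c N α) =
      u * co u g + co u k) : ∃ y y' : B, ‖y‖ ≤ H ^ 11 * ξ ∧ ‖y'‖ ≤ H ^ 11 * ξ ∧ ∀ u,
      N * co u (T n (be b c N α) - be b c N α) - ex (255 * N) u * (N * co u
        (T n (be b c (N + 255 * N) α') - be b c (N + 255 * N) α')) =
          co u y - ex (255 * N) u * co u y' := by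
  obtain ⟨E1, E2, θ0, t0, fin⟩ := Z.E1
  obtain ⟨e1, e2, e3⟩ := Z.alg
  have H2 : 2 ≤ H := by linarith
  have ξ0 : 0 ≤ ξ := (norm_nonneg _).trans x1
  have h' : 0 < N + 255 * N := by positivity
  have bc : 0 ≤ ‖b‖ * ‖c‖ := by positivity
  have nX : ‖prD h b * pr h c‖ ≤ H := (nm (prD_le h b) (pr_le h c)).trans (by linarith [Z.nbc])
  have er : ∀ {σ : ℝ} (_ : 0 < σ) {X β : B}, em σ a * β = 1 → ‖β‖ ≤ H → ‖X‖ ≤ H →
      ∃ r, ‖r‖ ≤ H ^ 3 * ξ ∧ T n (X * β) - X * β = (T n X - X) * β + r := by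
    intro σ hσ X β i nβ nX
    have i2 : em σ (T n a) * T n β = 1 := by rw [← T_em hσ, ← map_mul, i, map_one]
    refine ⟨T n X * β * T n β * -em σ (T n a - a), mo (mo (mo (o1 ((T_le _ _).trans nX)) (o1 nβ))
      (o1 ((T_le _ _).trans nβ))) (o0 ((norm_neg _).trans_le ((em_le hσ _).trans x1))), ?_⟩
    rw [map_mul, em_sub hσ]
    linear_combination (-(T n X * T n β)) * i + T n X * β * i2
  obtain ⟨r, r1, r2⟩ := er h Z.i1 Z.n1 ((A.n1 _).trans nX)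
  obtain ⟨r', r1', r2'⟩ := er h' Z.i2 Z.n2 ((A.n2 _).trans nX)
  have s1 : ∀ σ β, ((N : ℂ) • emD σ b * em σ c) * β = (N : ℂ) • be b c σ β := fun σ β => by
    rw [smul_mul_assoc, smul_mul_assoc, be]
  have key : ∀ u, N * co u (T n (be b c N α) - be b c N α) - ex (255 * N) u * (N * co u
      (T n (be b c (N + 255 * N) α') - be b c (N + 255 * N) α')) =
      Ph α α' (TA n _ (prD h b * pr h c) - prD h b * pr h c) u + co u r -
        ex (255 * N) u * co u r' := fun u => by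
    have a1 := congrArg (co u) r2
    have a2 := congrArg (co u) r2'
    change co u (T n (((N : ℂ) • emD _ b * em _ c) * _) - ((N : ℂ) • emD _ b * em _ c) * _) = _
      at a1 a2
    rw [s1, T_smul, ← smul_sub, map_smul, smul_eq_mul, map_add] at a1 a2
    rw [a1, a2, mul_add, Ph]
    have : ∀ p q r s : ℂ, p + q - (r + s) = p - r + q - s := fun p q r s => by ring
    exact this _ _ _ _
  have φ1 : ∀ u : ℚ, ‖if u < 0 then ex (255 * N) u else 0‖ ≤ 1 := fun u => by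
    split_ifs with c
    · rw [ex_norm, Real.exp_le_one_iff]
      have : (u : ℝ) < 0 := by exact_mod_cast c
      nlinarith
    · simp
  obtain ⟨Δ, hΔ⟩ : ∃ Δ, Δ = T n (be b c N α) - be b c N α := ⟨_, rfl⟩
  obtain ⟨Δ', hΔ'⟩ : ∃ Δ, Δ = T n (be b c (N + 255 * N) α') - be b c (N + 255 * N) α' := ⟨_, rfl⟩
  have m1 : ‖cut (Ico (-t - t) (-t)) ((N : ℂ) • Δ)‖ ≤ 18 * ‖g‖ + 9 * N * ‖k‖ := by
    refine hasSum_le (fun u => ?_) (hs _) (((hs g).mul_left _).add ((hs k).mul_left _))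
    rw [co_cut]; split_ifs with c
    · have c1 : (-t - t : ℝ) ≤ u := by exact_mod_cast c.1
      have c2 : (u : ℝ) < -t := by exact_mod_cast c.2
      have : co u Δ = ex (-N) u * (u * co u g + co u k) := by
        rw [← P u (by exact_mod_cast c2.trans (neg_lt_zero.mpr t0)), ← mul_assoc, ex_mul, neg_add_cancel,
          ex0, one_mul, hΔ]
      have c3 : N * |(u : ℝ)| ≤ 2 := by rw [abs_of_neg (by linarith)]; nlinarith [Z.Nt]
      have c4 : Real.exp (-N * u) ≤ 9 := by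
        have := Real.exp_one_lt_d9
        calc _ ≤ Real.exp (1 + 1) := Real.exp_le_exp.mpr (by nlinarith [Z.Nt])
          _ ≤ _ := by rw [Real.exp_add]; nlinarith [Real.exp_pos 1]
      rw [map_smul, this, smul_eq_mul, norm_mul, norm_mul, ex_norm, Complex.norm_real,
        Real.norm_of_nonneg h.le]
      calc _ ≤ N * (9 * (|(u : ℝ)| * ‖co u g‖ + ‖co u k‖)) := by
            gcongr
            exact (norm_add_le _ _).trans_eq (by rw [norm_mul, Complex.norm_ratCast])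
        _ = 9 * (N * |(u : ℝ)|) * ‖co u g‖ + 9 * N * ‖co u k‖ := by ring
        _ ≤ 9 * 2 * ‖co u g‖ + 9 * N * ‖co u k‖ := by gcongr
        _ = _ := by ring
    · simp only [norm_zero]; positivity
  have m2 : ‖cut (Ico (-t - t) (-t)) ((N : ℂ) • Δ')‖ ≤ H ^ 3 * θ := by
    have h'' : 0 < N + 255 * N + δ := by linarith [Z.d0]
    have a1 : Rel (ex (-δ)) ((N : ℂ) • be b c (N + 255 * N) α')
        ((N : ℂ) • be b c (N + 255 * N + δ) α'') :=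
      (((emD_rel2 h' Z.d0 b).mul (ex_add _) (em_rel2 h' Z.d0 c)).mul (ex_add _) Z.rel).smul _
    have a2 : ‖(N : ℂ) • be b c (N + 255 * N + δ) α''‖ ≤ H ^ 2 * 1 := by
      rw [← s1]
      exact mo (o1 ((nm (emD_le h'' b h.le (by linarith [Z.d0])) (em_le h'' c)).trans
        (by linarith [Z.nbc]))) (o1 Z.n3)
    rw [hΔ', smul_sub, ← T_smul]
    refine (decay Z.d0 ((a1.T n).sub a1) (c := t / 2) fun u hu => ?_).trans ?_
    · have c2 : (u : ℝ) < -t := by exact_mod_cast hu.2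
      linarith
    · rw [mul_comm]
      exact mul_le_mul ((so H2 zero_le_one ((T_le _ _).trans a2) a2).trans_eq (by simp)) Z.dec
        (Real.exp_pos _).le (by positivity)
  have hE : Real.exp (255 * N * |((-t : ℚ) : ℝ)|) ≤ Real.exp 255 := by
    push_cast; rw [abs_neg, abs_of_pos t0, mul_assoc, Z.Nt, mul_one]
  obtain ⟨κ, ρ, c1, c2, c3, c4⟩ := Rec (s := -t) (t := t) (by positivity) hE (a := pr h a) Z.i1 Z.i2 e3
    ((em_sup h (sup_cut _ a)).mono fun _ a => a.2)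
    ((em_sup h' (P := fun _ => True) fun _ _ => trivial).mono fun _ a => a.1)
    (TA n _ (prD h b * pr h c) - prD h b * pr h c)
    (Y := cut (Ico (-t - t) (-t)) ((N : ℂ) • Δ) - ml (fun u => if u < 0 then ex (255 * N) u else 0)
      (cut (Ico (-t - t) (-t)) ((N : ℂ) • Δ')) - r +
        ml (fun u => if u < 0 then ex (255 * N) u else 0) r') fun u hu => by
      have c2 : u < 0 := hu.2.trans (by exact_mod_cast neg_lt_zero.mpr t0)
      have := key u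
      rw [← hΔ, ← hΔ'] at this
      simp only [map_add, map_sub, co_ml φ1, co_cut, if_pos hu, if_pos c2, map_smul, smul_eq_mul]
      linear_combination this
  have nx : ‖TA n _ (prD h b * pr h c) - prD h b * pr h c‖ ≤ H ^ 2 * 1 :=
    so H2 zero_le_one (o1 ((TA_le _ _ _).trans nX)) (o1 nX)
  have c5 : ‖ρ‖ ≤ H ^ 5 * θ := by
    refine c3.trans ((mul_le_mul Z.sh (ad H2 zero_le_one (mo ((A.n1 _).trans nx) (o1 Z.n1))
      (sc H2 E1 (norm_nonneg _) le_rfl (mo ((A.n2 _).trans nx) (o1 Z.n2))))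
      (by positivity) θ0).trans_eq (by norm_num [mul_comm]))
  have r3 : ‖r‖ ≤ H ^ 3 * θ := r1.trans (by gcongr)
  have r3' : ‖r'‖ ≤ H ^ 3 * θ := r1'.trans (by gcongr)
  have c6 := na (ns (ns m1 (((ml_le φ1 _).trans_eq (one_mul _)).trans m2)) r3)
    (((ml_le φ1 _).trans_eq (one_mul _)).trans r3')
  have c7 : ‖V * κ‖ ≤ 1 / 4 := by
    have a1 := A.nsup (by positivity) hE (c4.mono fun _ => le_of_lt)
    rw [c2] at a1
    have a2 := na ((cut_le (Ioi (-t)) _).trans (nm (em_le h (cut (Iic t) a))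
      ((cut_le (Ico (-t - t) (-t)) _).trans c6))) c5
    exact (norm_mul_le _ _).trans (num1 E2 θ0 E1 (Real.exp_pos _).le fin (norm_nonneg _)
      (norm_nonneg _) Z.v2 Z.v3 g1 (norm_nonneg _) k1 x3
      (a1.trans (mul_le_mul_of_nonneg_left a2 (Real.exp_pos _).le)))
  have t1 : ‖TA n _ (pr h a) - pr h a‖ ≤ 2 * ξ := by
    rw [show TA n _ (pr h a) - pr h a = pr h (T n a - a) from
      A.ext1 (by exact (congrArg (· - em N a) (T_em h n a)).trans (em_sub h _ _).symm)]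
    exact (pr_le h _).trans (by linarith)
  have t2 : ‖TA n _ (prD h a - pr h a) - (prD h a - pr h a)‖ ≤ 2 * ξ := by
    rw [show TA n _ (prD h a - pr h a) - (prD h a - pr h a) =
      prD h (T n a - a) - pr h (T n a - a) from A.ext1 (by
        change T n ((N : ℂ) • emD N a - em N a) - ((N : ℂ) • emD N a - em N a) =
          (N : ℂ) • emD N _ - em N _
        rw [map_sub, T_smul, T_emD h, T_em h, emD_sub h, em_sub h, smul_sub]; ring)]
    exact (ns (prD_le h _) (pr_le h _)).trans (by linarith)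
  obtain ⟨x, d1, d2⟩ := ZA (TA n _) (TA_le n _) (by linarith) e1 e2 Z.v1 Z.v2 nX
    ((nm (prD_le h b) (ns (prD_le h c) (pr_le h c))).trans (by linarith [Z.nbc]))
    ((ns (prD_le h a) (pr_le h a)).trans (by linarith [Z.nA])) t1 t2 c1 c7 (by
      have := fin _ (up H2 θ0 (le_refl (H ^ 3 * θ)) 29)
      have : H ^ 3 * ξ ≤ H ^ 3 * θ := by gcongr
      linarith)
  have d3 : ‖x‖ ≤ H ^ 9 * ξ := sc H2 H2 (by positivity) (d2.trans_eq (by ring)) (le_refl (H ^ 8 * ξ))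
  refine ⟨α * x.1.1 + r, α' * x.1.2 + r', ao H2 ξ0 (mo (o1 Z.n1) ((A.n1 _).trans d3)) r1,
    ao H2 ξ0 (mo (o1 Z.n2) ((A.n2 _).trans d3)) r1', fun u => ?_⟩
  rw [key, Ph_dvd (a := pr h a) Z.i1 Z.i2 d1, Ph, map_add, map_add, mul_comm α, mul_comm α']
  ring

end Pool.Agent.H.MP_89f94c_an
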