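import Pool.Agent.H.MP_89f94c_an.D

namespace Pool.Agent.H.MP_89f94c_an

open Filter Topology Set

attribute [local irreducible] ml geo

theorem exA {δ : ℝ} (hδ : 0 ≤ δ) {s : ℚ} {x : B} (h : Sup (s ≤ ·) x) : ∃ p : A δ, p.1.1 = x := by
  have b : ∀ u : ℚ, ‖if s ≤ u then ex (-δ) u else 0‖ ≤ Real.exp (-δ * s) := fun u => by
    split_ifs with c
    · rw [ex_norm, Real.exp_le_exp]
      have : (s : ℝ) ≤ u := by exact_mod_cast c
      nlinarith
    · simp [Real.exp_nonneg]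
  refine ⟨⟨(x, ml (fun u => if s ≤ u then ex (-δ) u else 0) x), fun u => ?_⟩, rfl⟩
  rw [co_ml b]; split_ifs with c
  · rfl
  · simp [h.zero c]

theorem ψ_low {x : ℝ} (h1 : 1 / 16 ≤ |x|) (h2 : |x| ≤ 1 / 2) :
    1 ≤ 4 * ‖Complex.exp (Complex.I * (2 * Real.pi * x : ℝ)) - 1‖ := by
  rw [Complex.norm_exp_I_mul_ofReal_sub_one, norm_mul, Real.norm_eq_abs, Real.norm_eq_abs]
  have p := Real.pi_pos
  have e : |2 * Real.pi * x / 2| = Real.pi * |x| := by
    rw [show 2 * Real.pi * x / 2 = Real.pi * x by ring, abs_mul, abs_of_pos p]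
  have := Real.mul_abs_le_abs_sin (x := 2 * Real.pi * x / 2) (by rw [e]; nlinarith)
  rw [e, show 2 / Real.pi * (Real.pi * |x|) = 2 * |x| by field_simp] at this
  norm_num; linarith

variable {a b c : B} {N : ℝ} {h : 0 < N} {t : ℚ} {H θ δ : ℝ} {α α' α'' : B} {V : A (255 * N)}

set_option maxHeartbeats 400000 in
theorem Zn.spec1 (Z : Zn a b c N h t H θ δ α α' α'' V) {y y' : B}
    (gap : Sup (· ≤ t / 8) (cut (Iio t) a)) (hD : ‖prD h a - pr h (cut {t} a)‖ ≤ θ)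
    (y1 : ‖y‖ ≤ θ) (y2 : ‖y'‖ ≤ θ) (P : ∀ u, N * co u (T N (be b c N α) - be b c N α) -
      ex (255 * N) u * (N * co u (T N (be b c (N + 255 * N) α') - be b c (N + 255 * N) α')) =
          co u y - ex (255 * N) u * co u y') :
    ∃ p ν : A (255 * N), pr h a ∣ V * (prD h b * pr h c) - (p + ν) ∧ ‖ν‖ ≤ H ^ 8 * θ ∧
      ‖p‖ ≤ H ^ 5 * 1 ∧ Sup (· ∈ Icc (-(t / 16)) (t / 16)) p.1.1 := by
  obtain ⟨E1, E2, θ0, t0, fin⟩ := Z.E1
  obtain ⟨e1, e2, e3⟩ := Z.alg
  have t0' : 0 < t := by exact_mod_cast t0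
  have H2 : 2 ≤ H := by linarith
  have h' : 0 < N + 255 * N := by positivity
  have bc : 0 ≤ ‖b‖ * ‖c‖ := by positivity
  have nX : ‖prD h b * pr h c‖ ≤ H ^ 1 * 1 :=
    o1 ((nm (prD_le h b) (pr_le h c)).trans (by linarith [Z.nbc]))
  have hE : ∀ s : ℚ, |s| ≤ t → Real.exp (255 * N * |(s : ℝ)|) ≤ Real.exp 255 := fun s hs => by
    have : |(s : ℝ)| ≤ t := by exact_mod_cast hs
    exact Real.exp_le_exp.mpr (by nlinarith [Z.Nt])
  obtain ⟨Y, hY, nY⟩ : ∃ Y : B, (∀ u ≤ t, co u Y = Ph α α' (prD h b * pr h c) u) ∧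
      ‖Y‖ ≤ H ^ 4 * 1 := ⟨(prD h b * pr h c).1.1 * α - ml (fun u => if u ≤ t then
        ex (255 * N) u else 0) ((prD h b * pr h c).1.2 * α'), fun u hu => by
      rw [map_sub, co_ml Z.φ, if_pos hu, Ph], so H2 zero_le_one (mo ((A.n1 _).trans nX) (o1 Z.n1))
        (sc H2 E1 (norm_nonneg _) (ml_le Z.φ _) (mo ((A.n2 _).trans nX) (o1 Z.n2)))⟩
  obtain ⟨κ, ρ, c1, c2, c3, c4⟩ := Rec (s := t / 2) (t := t) (by positivity)
    (hE _ (by rw [abs_of_pos (by positivity)]; linarith)) (a := pr h a) Z.i1 Z.i2 e3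
    ((em_sup h (sup_cut _ a)).mono fun _ a => a.2)
    ((em_sup h' (P := fun _ => True) fun _ _ => trivial).mono fun _ a => a.1) _
    (Y := Y) fun u hu => hY u (by linarith [hu.2])
  have c5 : ‖ρ‖ ≤ H ^ 4 * θ :=
    c3.trans ((mul_le_mul Z.sh (ad H2 zero_le_one (mo ((A.n1 _).trans nX) (o1 Z.n1))
      (sc H2 E1 (norm_nonneg _) le_rfl (mo ((A.n2 _).trans nX) (o1 Z.n2))))
      (by positivity) θ0).trans_eq (by norm_num [mul_comm]))
  have sl := sup_cut (Icc (-(t / 16)) (t / 16)) Y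
  obtain ⟨p, hp⟩ := exA (δ := 255 * N) (by positivity) (sl.mono fun _ a => a.1)
  have np : ‖p‖ ≤ H ^ 5 * 1 := sc H2 E1 (norm_nonneg _) (A.nsup (by positivity)
    (hE (-(t / 16)) (by rw [abs_neg, abs_of_pos (by positivity)]; linarith))
    (hp ▸ sl.mono fun _ a => a.1)) (hp ▸ (cut_le _ _).trans nY)
  obtain ⟨Ym, hm⟩ : ∃ Ym, Ym = cut (Ico (t / 2 - t) (t / 2)) Y - cut (Icc (-(t / 16)) (t / 16)) Y :=
    ⟨_, rfl⟩
  have nm' : ‖Ym‖ ≤ H ^ 3 * θ := by
    refine sc H2 (show (4 : ℝ) ≤ H by linarith) (norm_nonneg _) (nle (x := y - ml (fun u =>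
      if u ≤ t then ex (255 * N) u else 0) y') fun u => ?_)
      (so H2 θ0 (o0 y1) (sc H2 E1 (norm_nonneg _) (ml_le Z.φ _) (o0 y2)))
    rw [hm, map_sub, co_cut, co_cut]
    split_ifs with d1 d2 d2
    · simp
    · have d3 : u ≤ t := by linarith [d1.2]
      have s1 : ∀ σ β, ((N : ℂ) • emD σ b * em σ c) * β = (N : ℂ) • be b c σ β := fun σ β => by
        rw [smul_mul_assoc, smul_mul_assoc, be]
      have : co u Y = N * co u (be b c N α) - ex (255 * N) u *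
          (N * co u (be b c (N + 255 * N) α')) := by
        rw [hY u d3, ← smul_eq_mul (N : ℂ), ← smul_eq_mul (N : ℂ), ← map_smul, ← map_smul,
          ← s1, ← s1]; rfl
      have e : co u y - ex (255 * N) u * co u y' = (ψ N u - 1) * co u Y := by
        rw [← P, this, map_sub, map_sub, co_T, co_T]; ring
      rw [sub_zero, map_sub, co_ml Z.φ, if_pos d3, e, norm_mul, ← mul_assoc]
      refine le_mul_of_one_le_left (norm_nonneg _) (ψ_low ?_ ?_)
      · have : t / 16 ≤ |u| := by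
          by_contra d; exact d2 (abs_le.mp (not_le.mp d).le)
        have : (t : ℝ) / 16 ≤ |(u : ℝ)| := by exact_mod_cast this
        rw [abs_mul, abs_of_pos h]; nlinarith [Z.Nt]
      · have : |u| ≤ t / 2 := abs_le.mpr ⟨by linarith [d1.1], d1.2.le⟩
        have : |(u : ℝ)| ≤ (t : ℝ) / 2 := by exact_mod_cast this
        rw [abs_mul, abs_of_pos h]; nlinarith [Z.Nt]
    · exact absurd ⟨by linarith [d2.1], by linarith [d2.2]⟩ d1
    · simp
  have e4 : em N (cut (Iic t) a) = em N (cut {t} a) + em N (cut (Iio t) a) := by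
    rw [← em_add h]; congr 1
    exact ext' fun u => by
      simp only [map_add, co_cut, mem_Iic, mem_Iio, mem_singleton_iff]
      rcases lt_trichotomy u t with c | c | c
      · simp [c, c.le, c.ne]
      · simp [c]
      · simp [c.not_ge, c.ne', c.not_gt]
  have sW : Sup (t / 2 < ·) (em N (cut {t} a) * cut (Icc (-(t / 16)) (t / 16)) Y) :=
    (em_sup h (sup_cut _ a)).mul sl fun u v (a : _ ∧ u = t) b => by linarith [a.2, b.1]
  have c6 : (κ - pr h (cut {t} a) * p).1.1 = cut (Ioi (t / 2)) (em N (cut (Iic t) a) * Ym) + ρ := by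
    change κ.1.1 - em N (cut {t} a) * p.1.1 = _
    rw [c2, hp, eq_add_of_sub_eq hm.symm, mul_add, cut_add]
    conv_lhs => rw [e4, add_mul (em N _) (em N _) (cut _ Y), cut_add,
      Sup.cut_eq (S := Ioi (t / 2)) sW, Sup.cut_zero (S := Ioi (t / 2)) ((em_sup h gap).mul sl
        fun u v a b (c : t / 2 < u + v) => by linarith [a.2, b.2]), ← e4]
    ring
  have c7 : ‖κ - pr h (cut {t} a) * p‖ ≤ H ^ 6 * θ := by
    refine sc H2 E1 (norm_nonneg _) (A.nsup (s := t / 2) (by positivity)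
      (hE _ (by rw [abs_of_pos (by positivity)]; linarith)) ?_) (c6 ▸ ao H2 θ0
        ((cut_le _ _).trans (mo (o1 ((em_le h _).trans ((cut_le _ _).trans (Z.nA.trans H2))))
          nm')) c5)
    change Sup _ (κ.1.1 - em N (cut {t} a) * p.1.1)
    rw [hp, sub_eq_add_neg]
    exact (c4.add sW.neg).mono fun _ => le_of_lt
  refine ⟨p, V * (κ - pr h (cut {t} a) * p) - V * (p * (prD h a - pr h (cut {t} a))), ?_,
    so H2 θ0 (mo (o1 Z.v2) c7) (mo (o1 Z.v2) (mo np (o0 hD))), np, hp ▸ sl⟩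
  convert (c1.mul_left V).add (Dvd.intro (V * p) rfl) using 1
  linear_combination p * Z.v1

set_option maxHeartbeats 400000 in
theorem Zn.spec (Z : Zn a b c N h t H θ δ α α' α'' V) {y y' β : B}
    (i : em N (cut (Iic t) a) * β = 1) (nβ : ‖β‖ ≤ H) (sβ : Sup (· ≤ -t) β)
    (gap : Sup (· ≤ t / 8) (cut (Iio t) a)) (hD : ‖prD h a - pr h (cut {t} a)‖ ≤ θ)
    (y1 : ‖y‖ ≤ θ) (y2 : ‖y'‖ ≤ θ) (P : ∀ u, N * co u (T N (be b c N α) - be b c N α) -
      ex (255 * N) u * (N * co u (T N (be b c (N + 255 * N) α') - be b c (N + 255 * N) α')) =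
          co u y - ex (255 * N) u * co u y') : pr h a ∣ pr h c ∨ pr h a ∣ pr h b := by
  obtain ⟨p, ν, d, n1, n2, sp⟩ := Z.spec1 gap hD y1 y2 P
  obtain ⟨E1, E2, θ0, t0, fin⟩ := Z.E1
  obtain ⟨e1, e2, e3⟩ := Z.alg
  have t0' : 0 < t := by exact_mod_cast t0
  have H2 : 2 ≤ H := by linarith
  have h' : 0 < N + 255 * N := by positivity
  have n3 : ‖ν‖ ≤ 1 / 10 ^ 5 := fin _ (up H2 θ0 n1 29)
  refine SA (by positivity) e1 e2 Z.v1 d (n3.trans (by norm_num)) ?_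
  obtain ⟨f, hf⟩ : ∃ f, f = p * p - p := ⟨_, rfl⟩
  obtain ⟨μ, hμ⟩ : ∃ μ, μ = ν - (p + p + ν) * ν := ⟨_, rfl⟩
  have nf : ‖f‖ ≤ H ^ 11 * 1 := hf ▸ so H2 zero_le_one (mo n2 n2) n2
  have nμ : ‖μ‖ ≤ H ^ 16 * θ := hμ ▸ so H2 θ0 n1 (mo (ao H2 zero_le_one
    (ao H2 zero_le_one n2 n2) (o0 (n3.trans (by norm_num)))) n1)
  have sf : Sup (· ∈ Icc (-(t / 8)) (t / 8)) f.1.1 := by
    rw [hf, sub_eq_add_neg]
    exact (sp.mul sp fun u v a b => ⟨by linarith [a.1, b.1], by linarith [a.2, b.2]⟩).add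
      (sp.neg.mono fun u a => ⟨by linarith [a.1], by linarith [a.2]⟩)
  have d2 : pr h a ∣ f * pr h (cut {t} a) - μ * pr h (cut {t} a) := by
    have q : pr h a ∣ V * (prD h b * pr h c) * (V * (prD h b * pr h c)) - V * (prD h b * pr h c) :=
      ⟨-(V * V * (prD h b * (prD h c - pr h c))), by
        have e3 := Z.v1
        rw [e2] at e3
        rw [e1]; linear_combination (V * (prD h b * pr h c)) * e3⟩
    convert (q.sub (d.mul_right (V * (prD h b * pr h c) + (p + ν) - 1))).mul_right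
      (pr h (cut {t} a)) using 1
    rw [hf, hμ]; ring
  have e4 : em N (cut (Iic t) a) = em N (cut {t} a) + em N (cut (Iio t) a) := by
    rw [← em_add h]; congr 1
    exact ext' fun u => by
      simp only [map_add, co_cut, mem_Iic, mem_Iio, mem_singleton_iff]
      rcases lt_trichotomy u t with c | c | c
      · simp [c, c.le, c.ne]
      · simp [c]
      · simp [c.not_ge, c.ne', c.not_gt]
  have nW : ‖pr h (cut {t} a)‖ ≤ H ^ 1 * 1 :=
    o1 ((pr_le h _).trans ((cut_le _ _).trans (Z.nA.trans H2)))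
  have nD : ‖em N (cut (Iio t) a)‖ ≤ H ^ 1 * 1 :=
    o1 ((em_le h _).trans ((cut_le _ _).trans (Z.nA.trans H2)))
  have nα : ‖cut (Iic (-(t / 2))) α'‖ ≤ H ^ 1 * θ :=
    (decay Z.d0 Z.rel (c := t / 2) fun u hu => by exact_mod_cast hu).trans (by
      rw [pow_one, mul_comm]; exact mul_le_mul Z.n3 Z.dec (Real.exp_pos _).le (by linarith))
  obtain ⟨S, hS⟩ : ∃ S, S = em N (cut (Ioi t) a) := ⟨_, rfl⟩
  obtain ⟨D, hD'⟩ : ∃ S, S = em N (cut (Iio t) a) := ⟨_, rfl⟩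
  have k : f.1.1 = cut (Icc (-(t / 8)) (t / 8)) (f.1.1 * (α * (S - D * (β * S))) +
      ml (fun u => if u ≤ t then ex (255 * N) u else 0)
        ((f * pr h (cut {t} a)).1.2 * cut (Iic (-(t / 2))) α') +
      (α * (μ * pr h (cut {t} a)).1.1 - ml (fun u => if u ≤ t then ex (255 * N) u else 0)
        (α' * (μ * pr h (cut {t} a)).1.2))) := by
    rw [← sf.cut_eq]
    refine ext' fun u => ?_
    rw [co_cut, co_cut, sf.cut_eq]
    split_ifs with c
    · have a1 := Ph_dvd (a := pr h a) Z.i1 Z.i2 d2 u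
      have a2 : (f * pr h (cut {t} a)).1.1 * α =
          f.1.1 - f.1.1 * D * β - f.1.1 * (α * (S - D * (β * S))) := by
        change f.1.1 * em N (cut {t} a) * α = _
        have i1 := Z.i1
        rw [e3, ← hS] at i1
        rw [← hD'] at e4
        linear_combination f.1.1 * (1 - D * β) * i1 - f.1.1 * α * e4 + f.1.1 * D * α * i
      have a3 : co u (f.1.1 * D * β) = 0 := Sup.zero (P := (· < -(t / 8))) ((sf.mul
        (hD' ▸ em_sup h gap) (R := (· ≤ t / 4)) fun u v a b => by linarith [a.2, b.2]).mul sβ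
        fun u v a b => by linarith) (not_lt.mpr c.1)
      have a4 : (f * pr h (cut {t} a)).1.2 * α' = (f * pr h (cut {t} a)).1.2 *
          cut (Iic (-(t / 2))) α' + (f * pr h (cut {t} a)).1.2 * cut (Ioi (-(t / 2))) α' := by
        rw [← mul_add]; congr 1
        exact ext' fun u => by
          simp only [map_add, co_cut, mem_Iic, mem_Ioi, ← not_le]
          by_cases c : u ≤ -(t / 2) <;> simp [c]
      have a5 : co u ((f * pr h (cut {t} a)).1.2 * cut (Ioi (-(t / 2))) α') = 0 :=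
        Sup.zero (P := (t / 8 < ·)) (((Rel.sup f.2 sf).mul (em_sup h' (sup_cut {t} a))
          (R := (7 * t / 8 ≤ ·)) fun u v a (b : _ ∧ v = t) => by linarith [a.1, b.2]).mul
          (sup_cut _ α') fun u v a (b : _ < v) => by linarith) (not_lt.mpr c.2)
      rw [Ph, Ph, a2, a4, map_sub, map_sub, map_add, a3, a5] at a1
      simp only [map_add, map_sub, co_ml Z.φ, if_pos (show u ≤ t by linarith [c.2])]
      rw [mul_comm α (μ * _).1.1, mul_comm α' (μ * _).1.2]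
      linear_combination a1
    · rfl
  have nS : ‖S‖ ≤ H ^ 0 * θ := o0 (hS ▸ Z.sh)
  have nM : ‖μ * pr h (cut {t} a)‖ ≤ H ^ 17 * θ := by rw [mul_comm μ]; exact mo nW nμ
  have b1 : ‖f.1.1 * (α * (S - D * (β * S)))‖ ≤ H ^ 15 * θ := mo ((A.n1 _).trans nf) (mo (o1 Z.n1)
    (so H2 θ0 nS (mo (hD' ▸ nD) (mo (o1 nβ) nS))))
  have b2 : ‖(f * pr h (cut {t} a)).1.2 * cut (Iic (-(t / 2))) α'‖ ≤ H ^ 13 * θ :=
    mo ((A.n2 _).trans (mo nf nW)) nα
  have b3 : ‖α * (μ * pr h (cut {t} a)).1.1‖ ≤ H ^ 18 * θ := mo (o1 Z.n1) ((A.n1 _).trans nM)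
  have b4 : ‖α' * (μ * pr h (cut {t} a)).1.2‖ ≤ H ^ 18 * θ := mo (o1 Z.n2) ((A.n2 _).trans nM)
  have b5 : ‖f.1.1‖ ≤ H ^ 21 * θ := by
    rw [k]
    exact (cut_le _ _).trans (ao H2 θ0 (ao H2 θ0 b1 (sc H2 E1 (norm_nonneg _) (ml_le Z.φ _) b2))
      (so H2 θ0 b3 (sc H2 E1 (norm_nonneg _) (ml_le Z.φ _) b4)))
  have := sc H2 E1 (norm_nonneg _) (A.nsup (s := -(t / 8)) (by positivity) (by
      have : (0 : ℝ) < t / 8 := by positivity
      push_cast; rw [abs_neg, abs_of_pos this]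
      exact Real.exp_le_exp.mpr (by nlinarith [Z.Nt])) (sf.mono fun _ a => a.1)) b5
  rw [← hf]
  exact (fin _ (up H2 θ0 this 29)).trans (by norm_num)

end Pool.Agent.H.MP_89f94c_an
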