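import Pool.Agent.H.MP_89f94c_an.E

namespace Pool.Agent.H.MP_89f94c_an

open Filter Topology Set

attribute [local irreducible] ml geo

set_option maxHeartbeats 200000

noncomputable def iw (γ : ℝ) (t : ℚ) (ς : ℝ) : B := ((γ : ℂ) * ex (-ς) t)⁻¹ • dl (-t)

noncomputable def uu (f : B) (γ : ℝ) (t : ℚ) (ς : ℝ) : B := iw γ t ς * em ς (f - (γ : ℂ) • dl t)

noncomputable def al (f : B) (γ : ℝ) (t : ℚ) (ς : ℝ) : B := iw γ t ς * geo (uu f γ t ς)

theorem ex_ne (r : ℝ) (u : ℚ) : ex r u ≠ 0 := by simp [ex]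

section
variable {f : B} {γ ς : ℝ} {t : ℚ}

theorem iw_mul (h : 0 < ς) (ht : 0 < t) (hγ : 0 < γ) : em ς ((γ : ℂ) • dl t) * iw γ t ς = 1 := by
  rw [em_dl h ht, iw, smul_mul_smul_comm, dl_mul, add_neg_cancel, mul_inv_cancel₀ (mul_ne_zero
    (by exact_mod_cast hγ.ne') (ex_ne _ _)), one_smul]; rfl

theorem iw_le (hγ : 0 < γ) (h : ς * t ≤ 1) : ‖iw γ t ς‖ ≤ 3 / γ := by
  rw [iw, norm_smul, dl_norm, mul_one, norm_inv, norm_mul, ex_norm, Complex.norm_real,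
    Real.norm_of_nonneg hγ.le, mul_inv, neg_mul, Real.exp_neg, inv_inv, div_eq_inv_mul]
  gcongr
  exact (Real.exp_le_exp.mpr h).trans (by linarith [Real.exp_one_lt_d9])

theorem iw_rel (δ : ℝ) : Rel (ex (-δ)) (iw γ t ς) (iw γ t (ς + δ)) := by
  have := (rel_dl (ex (-δ)) (-t)).smul ((γ : ℂ) * ex (-ς) t)⁻¹
  rw [smul_smul] at this
  have e : ((γ : ℂ) * ex (-(ς + δ)) t)⁻¹ = ((γ : ℂ) * ex (-ς) t)⁻¹ * ex (-δ) (-t) := by
    simp only [ex, mul_inv, ← Complex.ofReal_inv, ← Real.exp_neg, mul_assoc, ← Complex.ofReal_mul,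
      ← Real.exp_add]
    congr 3; push_cast; ring
  rwa [iw, iw, e]

theorem iw_D : IsD (iw γ t ς) ((-t : ℂ) • iw γ t ς) := by
  have := (rel_dl (fun u => (u : ℂ)) (-t)).smul ((γ : ℂ) * ex (-ς) t)⁻¹
  rw [smul_comm] at this
  simpa [iw] using this

theorem al_mul (h : 0 < ς) (ht : 0 < t) (hγ : 0 < γ) (hu : ‖uu f γ t ς‖ ≤ 1 / 2) :
    em ς f * al f γ t ς = 1 := by
  have e1 := iw_mul h ht hγ
  have e2 := geo_mul hu
  rw [al]
  generalize geo (uu f γ t ς) = G at *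
  rw [uu, em_sub h] at e2
  linear_combination e2 + G * e1

theorem al_le (hγ : 0 < γ) (h : ς * t ≤ 1) (hu : ‖uu f γ t ς‖ ≤ 1 / 2) : ‖al f γ t ς‖ ≤ 6 / γ :=
  (nm (iw_le hγ h) (geo_le hu)).trans_eq (by ring)

theorem al_rel (h : 0 < ς) {δ : ℝ} (hδ : 0 ≤ δ) (hu : ‖uu f γ t ς‖ ≤ 1 / 2)
    (hu' : ‖uu f γ t (ς + δ)‖ ≤ 1 / 2) : Rel (ex (-δ)) (al f γ t ς) (al f γ t (ς + δ)) :=
  (iw_rel δ).mul (ex_add _) (((iw_rel δ).mul (ex_add _) (em_rel2 h hδ _)).geo (ex_add _)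
    (ex_zero _) hu hu')

theorem al_D (h : 0 < ς) (hu : ‖uu f γ t ς‖ ≤ 1 / 2) : ∃ w, IsD (al f γ t ς) w := by
  obtain ⟨w, hw⟩ := (iw_D.mul' (em_isD h _)).geo' hu
  exact ⟨_, iw_D.mul' hw⟩

theorem split3 (h : co t f = γ) : f - (γ : ℂ) • dl t = cut (Iio t) f + cut (Ioi t) f :=
  ext' fun u => by
    simp only [map_add, map_sub, map_smul, co_cut, co_dl, mem_Iio, mem_Ioi]
    rcases lt_trichotomy u t with c | c | c
    · simp [c, c.ne, c.not_gt]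
    · simp [c, h]
    · simp [c, c.ne', c.not_gt]

theorem uu_le (h : 0 < ς) (hγ : 0 < γ) (h1 : ς * t ≤ 1) (h2 : co t f = γ)
    (h3 : ‖cut (Iio t) f‖ ≤ γ / 15) (h4 : ‖em ς (cut (Ioi t) f)‖ ≤ γ / 10) :
    ‖uu f γ t ς‖ ≤ 1 / 2 := by
  rw [uu, split3 h2, em_add h]
  exact (nm (iw_le hγ h1) (na ((em_le h _).trans h3) h4)).trans_eq (by field_simp; norm_num)

theorem emD_near (h : 0 < ς) {N : ℝ} (hN : 0 ≤ N) (ht : 0 ≤ t) (hf : Sup (· ≤ t) f) :
    ‖(N : ℂ) • emD ς f‖ ≤ N * t * ‖f‖ := nle fun u => by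
  rw [map_smul, co_emD h]
  by_cases c : u ≤ t
  · split_ifs with a
    · rw [smul_eq_mul, ← mul_assoc, norm_mul, norm_mul, norm_mul, Complex.norm_real,
        Real.norm_of_nonneg hN, Complex.norm_ratCast, abs_of_pos (by positivity)]
      gcongr
      exact (mul_le_of_le_one_right (by positivity) (exle h a)).trans (by exact_mod_cast c)
    · simp only [smul_zero, norm_zero]; positivity
  · simp [hf.zero c]

end

structure Cx (a : B) (N : ℕ → ℕ) (C : ℝ) : Prop where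
  sup : Sup (fun u => ∃ k, u = (N k : ℚ)⁻¹) a
  val : ∀ k, co (N k : ℚ)⁻¹ a = ((1 / 16 : ℝ) ^ k : ℝ)
  tail : ∀ k, ‖cut (Iio (N k : ℚ)⁻¹) a‖ ≤ (1 / 16) ^ k / 15
  nA : ‖a‖ ≤ 2
  N0 : ∀ k, 0 < N k
  big : ∀ k, (C * 16 ^ (k + 1)) ^ 50 * (k + 1) * N k ^ 2 ≤ N (k + 1)
  dvd : ∀ k, 2 * N k ∣ N (k + 1)
  all : ∀ d, 0 < d → ∀ᶠ k in atTop, d ∣ N k
  hC : 10 ^ 8 * Real.exp 255 ≤ C

theorem exCx (C : ℝ) (hC : 10 ^ 8 * Real.exp 255 ≤ C) : ∃ a N, Cx a N C := by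
  choose G cp hG using fun k : ℕ => show ∃ G : ℕ, 0 < G ∧ (C * 16 ^ (k + 1)) ^ 50 ≤ G from
    ⟨⌈(C * 16 ^ (k + 1)) ^ 50⌉₊ + 1, Nat.succ_pos _, (Nat.le_ceil _).trans (by simp)⟩
  obtain ⟨N, n0, ns⟩ : ∃ N : ℕ → ℕ, N 0 = 1 ∧ ∀ k, N (k + 1) =
      2 * N k * ((k + 1) * N k * G k) :=
    ⟨fun k => Nat.rec 1 (fun k r => 2 * r * ((k + 1) * r * G k)) k, rfl, fun _ => rfl⟩
  have N0 : ∀ k, 0 < N k := fun k => by
    induction k with
    | zero => omega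
    | succ k ih => have := cp k; rw [ns]; positivity
  have sm : StrictMono N := strictMono_nat_of_lt_succ fun k => by
    have := N0 k
    have : 0 < (k + 1) * N k * G k := by have := cp k; positivity
    rw [ns]; nlinarith
  have lt : ∀ i k, (N i : ℚ)⁻¹ < (N k : ℚ)⁻¹ ↔ k < i := fun i k => by
    rw [inv_lt_inv₀ (by exact_mod_cast N0 i) (by exact_mod_cast N0 k), Nat.cast_lt, sm.lt_iff_lt]
  have inj : Function.Injective fun k => (N k : ℚ)⁻¹ := fun i k h =>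
    sm.injective (by exact_mod_cast inv_injective h)
  let F : ℚ → ℂ := Function.extend (fun k => (N k : ℚ)⁻¹) (fun k => ((1 / 16 : ℝ) ^ k : ℝ)) 0
  have F1 : ∀ k, F (N k : ℚ)⁻¹ = ((1 / 16 : ℝ) ^ k : ℝ) := inj.extend_apply _ _
  have F2 : ∀ u, u ∉ range (fun k => (N k : ℚ)⁻¹) → F u = 0 := fun u h =>
    Function.extend_apply' _ _ _ h
  have g := hasSum_geometric_of_lt_one (show (0 : ℝ) ≤ 1 / 16 by norm_num) (by norm_num)
  have s : HasSum (fun u => ‖F u‖) (1 - 1 / 16)⁻¹ := (inj.hasSum_iff fun u h => by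
    rw [F2 u h, norm_zero]).mp (g.congr_fun fun k => by simp [F1])
  refine ⟨mk F s.summable, N, fun u hu => ?_, F1, fun k => le_of_eq ?_,
    ((hs (mk F s.summable)).unique s).trans_le (by norm_num), N0, fun k => ?_, fun k => ⟨_, ns k⟩,
    fun d hd => ?_, hC⟩
  · by_contra c
    exact hu (F2 u fun ⟨k, h⟩ => c ⟨k, h.symm⟩)
  · refine (hs _).unique ((inj.hasSum_iff fun u h => by
      rw [co_cut, co_mk, F2 u h, ite_self, norm_zero]).mp ?_)
    change HasSum (fun i => ‖co (N i : ℚ)⁻¹ (cut (Iio (N k : ℚ)⁻¹) (mk F s.summable))‖) _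
    rw [← hasSum_nat_add_iff' (k + 1), Finset.sum_eq_zero fun i hi => by
      simp [co_cut, lt, Nat.lt_succ_iff.mp (Finset.mem_range.mp hi)], sub_zero]
    rw [show (1 / 16 : ℝ) ^ k / 15 = (1 - 1 / 16)⁻¹ * (1 / 16) ^ (k + 1) by ring]
    exact (g.mul_right ((1 / 16) ^ (k + 1))).congr_fun fun i => by
      simp [co_cut, lt, co_mk, F1, pow_add, show k < i + (k + 1) by omega]
  · have := hG k
    generalize (C * 16 ^ (k + 1)) ^ 50 = X at *
    rw [ns]; push_cast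
    have : X * (k + 1) * N k ^ 2 ≤ G k * (k + 1) * N k ^ 2 := by gcongr
    have : (0 : ℝ) ≤ G k * (k + 1) * N k ^ 2 := by positivity
    linarith
  · obtain ⟨d, rfl⟩ := Nat.exists_eq_succ_of_ne_zero hd.ne'
    refine (eventually_ge_atTop (d + 1)).mono fun k hk => ?_
    induction hk with
    | refl => rw [ns]; exact Dvd.dvd.mul_left (Dvd.dvd.mul_right (Dvd.intro _ rfl) _) _
    | step _ ih => rw [ns]; exact Dvd.dvd.mul_right (Dvd.dvd.mul_left ih _) _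

theorem T_tend (b : B) (n : ℕ → ℕ) (h : ∀ d, 0 < d → ∀ᶠ k in atTop, d ∣ n k) :
    Tendsto (fun k => ‖T (n k) b - b‖) atTop (𝓝 0) := by
  have := tendsto_tsum_of_dominated_convergence (𝓕 := atTop) (g := fun _ => (0 : ℝ))
    (f := fun k u => ‖co u (T (n k) b - b)‖) ((hs b).summable.mul_left 2)
    (fun u => tendsto_const_nhds.congr' ((h u.den u.pos).mono fun k ⟨m, hm⟩ => ?_))
    (.of_forall fun k u => ?_)
  · rw [tsum_zero] at this
    exact this.congr fun k => (hs _).tsum_eq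
  · have : ψ (n k) u = 1 := by
      rw [ψ, ← Complex.exp_int_mul_two_pi_mul_I (m * u.num)]
      congr 1
      have : ((n k : ℚ) * u : ℚ) = m * u.num := by
        rw [hm]; push_cast; rw [mul_right_comm, Rat.den_mul_eq_num]; ring
      have : ((n k : ℝ) * u) = m * u.num := by exact_mod_cast this
      rw [this]; push_cast; ring
    simp [co_T, this]
  · rw [norm_norm, map_sub, co_T, two_mul]
    exact norm_sub_le_of_le (by rw [norm_mul, ψ_norm, one_mul]) le_rfl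

end Pool.Agent.H.MP_89f94c_an
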