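import Pool.Agent.H.MP_89f94c_an.F

namespace Pool.Agent.H.MP_89f94c_an

open Filter Topology Set

attribute [local irreducible] ml geo

set_option maxHeartbeats 300000

variable {a b c : B} {N : ℕ → ℕ} {C : ℝ}

theorem numH {H γ : ℝ} (h1 : 10 ^ 8 ≤ H) (h2 : 10 ^ 8 ≤ γ * H) : 0 < (H ^ 30)⁻¹ ∧
    10 ^ 8 * (H ^ 30)⁻¹ ≤ γ ∧ 100 * (H ^ 50)⁻¹ ≤ (H ^ 30)⁻¹ ∧ 1000 ≤ H ^ 50 ∧ 0 < γ ∧
    H * (H ^ 30)⁻¹ * 10 ^ 8 ≤ γ ∧ 96 / γ ≤ H := by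
  have H0 : 0 < H := by linarith
  have H1 : 1 ≤ H := by linarith
  have g : 0 < γ := (mul_pos_iff_of_pos_right H0).mp (by linarith)
  have a : H * (H ^ 30)⁻¹ * 10 ^ 8 ≤ γ := by
    have : H ^ 2 ≤ H ^ 30 := pow_le_pow_right₀ H1 (by norm_num)
    calc _ ≤ H * (H ^ 2)⁻¹ * (γ * H) := by gcongr
      _ = _ := by field_simp
  have b : 0 < (H ^ 30)⁻¹ := by positivity
  have d : H ≤ H ^ 20 := le_self_pow₀ H1 (by norm_num)
  refine ⟨b, by nlinarith, ?_, le_trans (by linarith) (le_self_pow₀ H1 (by norm_num)), g, a,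
    (div_le_iff₀ g).mpr (by linarith)⟩
  calc _ ≤ H ^ 20 * (H ^ 50)⁻¹ := by gcongr; linarith
    _ = _ := by field_simp

@[irreducible] noncomputable def Hk (C : ℝ) (k : ℕ) : ℝ := C * 16 ^ k

theorem Cx.hh (X : Cx a N C) (k : ℕ) : 10 ^ 8 * Real.exp 255 ≤ Hk C k ∧ 10 ^ 8 ≤ Hk C k ∧
    10 ^ 8 ≤ (1 / 16) ^ k * Hk C k ∧ C ≤ Hk C k ∧ (0 : ℝ) < N k ∧ (1 : ℝ) ≤ N k ∧
    Hk C k ^ 50 * (k + 1) * N k ^ 2 ≤ N (k + 1) ∧ Hk C k ^ 50 * N k ≤ N (k + 1) ∧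
    Hk C (k + 1) = 16 * Hk C k ∧ Hk C (k + 1) ^ 50 * (k + 1) * N k ^ 2 ≤ N (k + 1) := by
  have e1 : 1 ≤ Real.exp 255 := Real.one_le_exp (by norm_num)
  have e2 := X.hC
  have e3 : C ≤ Hk C k := by
    unfold Hk; exact le_mul_of_one_le_right (by linarith) (one_le_pow₀ (by norm_num))
  have e4 : (1 : ℝ) ≤ N k := by exact_mod_cast X.N0 k
  have e6 : Hk C (k + 1) = 16 * Hk C k := by unfold Hk; ring
  have e7 : Hk C (k + 1) ^ 50 * (k + 1) * N k ^ 2 ≤ N (k + 1) := by unfold Hk; exact X.big k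
  have e0 : 0 ≤ Hk C k := by linarith
  have e5 : Hk C k ^ 50 * (k + 1) * N k ^ 2 ≤ N (k + 1) := le_trans (by gcongr; linarith) e7
  refine ⟨by linarith, by linarith, ?_, e3, by linarith, e4, e5, le_trans ?_ e5, e6, e7⟩
  · unfold Hk; rw [mul_left_comm, ← mul_pow]; norm_num; linarith
  · rw [mul_assoc]; gcongr
    have : (0 : ℝ) ≤ k := by positivity
    nlinarith

theorem Cx.mono (X : Cx a N C) : Monotone N := monotone_nat_of_le_succ fun k =>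
  Nat.le_of_dvd (X.N0 _) (Dvd.dvd.trans (Dvd.intro_left 2 rfl) (X.dvd k))

theorem Cx.pos (X : Cx a N C) : Sup (0 < ·) a := X.sup.mono fun _ ⟨k, h⟩ =>
  h ▸ inv_pos.mpr (by exact_mod_cast X.N0 k)

theorem Cx.tle (X : Cx a N C) {i k : ℕ} (h : i ≤ k) : (N k : ℚ)⁻¹ ≤ (N i : ℚ)⁻¹ :=
  inv_anti₀ (by exact_mod_cast X.N0 i) (by exact_mod_cast X.mono h)

theorem Cx.gap (X : Cx a N C) (k : ℕ) : Sup (· ≤ (N (k + 1) : ℚ)⁻¹) (cut (Iio (N k : ℚ)⁻¹) a) :=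
  (X.sup.cut' _).mono fun _ ⟨h1, _, h2⟩ => h2 ▸ X.tle (Nat.succ_le_of_lt (lt_of_not_ge fun h =>
    (X.tle h).not_gt (h2 ▸ h1)))

theorem Cx.t8 (X : Cx a N C) (k : ℕ) : (N (k + 1) : ℚ)⁻¹ ≤ (N k : ℚ)⁻¹ / 1000 := by
  obtain ⟨-, h1, h2, -, h3, -, -, h4, -⟩ := X.hh k
  have := (numH h1 h2).2.2.2.1
  have : (1000 : ℝ) * N k ≤ N (k + 1) := by nlinarith
  rw [div_eq_mul_inv, ← mul_inv, mul_comm]
  exact inv_anti₀ (by have := X.N0 k; positivity) (by exact_mod_cast this)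

theorem Cx.far (X : Cx a N C) (k : ℕ) {ς : ℝ} (h : N k ≤ ς) :
    ‖em ς (cut (Ioi (N k : ℚ)⁻¹) a)‖ ≤ (Hk C k ^ 30)⁻¹ / 10 ∧
    ‖((N k : ℝ) : ℂ) • emD ς (cut (Ioi (N k : ℚ)⁻¹) a)‖ ≤ (Hk C k ^ 30)⁻¹ / 10 := by
  obtain ⟨-, h1, h2, -, h3, -⟩ := X.hh k
  obtain ⟨-, -, g1, g2, -⟩ := numH h1 h2
  obtain ⟨e1, e2⟩ := em_far (h3.trans_le h) (G := Hk C k ^ 50) (by linarith)
    (f := cut (Ioi (N k : ℚ)⁻¹) a) ((X.sup.cut' _).mono fun u ⟨b1, i, b2⟩ => by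
      have hi : i < k := lt_of_not_ge fun h => (X.tle h).not_gt (b2 ▸ b1)
      obtain ⟨k, rfl⟩ := Nat.exists_eq_add_of_lt hi
      have a1 := (X.hh (i + k)).2.2.2.2.2.2.2.2.2
      have a2 : (N i : ℝ) ≤ N (i + k) := by exact_mod_cast X.mono (Nat.le_add_right i k)
      have a3 := (X.hh i).2.2.2.2.2.1
      rw [b2]; push_cast
      rw [← div_eq_mul_inv, le_div_iff₀ (by linarith)]
      refine le_trans ?_ (a1.trans h)
      rw [mul_assoc]; gcongr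
      have : (0 : ℝ) ≤ (i + k : ℕ) := by positivity
      nlinarith)
  have n := (cut_le (Ioi (N k : ℚ)⁻¹) a).trans X.nA
  have p : 0 < (Hk C k ^ 50)⁻¹ := by positivity
  refine ⟨e1.trans (by nlinarith), le_trans ?_ (e2.trans (by nlinarith))⟩
  rw [norm_smul, norm_smul, Complex.norm_real, Complex.norm_real, Real.norm_of_nonneg h3.le,
    Real.norm_of_nonneg (h3.le.trans h)]
  gcongr

theorem Cx.hu1 (X : Cx a N C) (k : ℕ) : ‖uu a ((1 / 16) ^ k) (N k : ℚ)⁻¹ (N k)‖ ≤ 1 / 2 := by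
  obtain ⟨-, h1, h2, -, h3, -⟩ := X.hh k
  obtain ⟨g0, g1, -, -, g2, -⟩ := numH h1 h2
  exact uu_le h3 g2 (by simp [h3.ne']) (X.val k) (X.tail k)
    ((X.far k le_rfl).1.trans (by linarith))

theorem Cx.sp (X : Cx a N C) (k : ℕ) : cut (Ioi (N (k + 1) : ℚ)⁻¹) a =
    (((1 / 16 : ℝ) ^ k : ℝ) : ℂ) • dl (N k : ℚ)⁻¹ + cut (Ioi (N k : ℚ)⁻¹) a ∧
    cut {(N k : ℚ)⁻¹} a = (((1 / 16 : ℝ) ^ k : ℝ) : ℂ) • dl (N k : ℚ)⁻¹ := by
  have h8 := X.t8 k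
  have p : 0 < (N k : ℚ)⁻¹ := inv_pos.mpr (by exact_mod_cast X.N0 k)
  refine ⟨ext' fun u => ?_, ext' fun u => ?_⟩
  · simp only [map_add, map_smul, co_cut, co_dl, mem_Ioi]
    rcases lt_trichotomy u (N k : ℚ)⁻¹ with c | c | c
    · rw [if_neg c.ne, if_neg c.not_gt, smul_zero, add_zero]
      split_ifs with d
      · have := (X.gap k).zero d.not_ge
        rwa [co_cut, if_pos (mem_Iio.mpr c)] at this
      · rfl
    · rw [c, if_pos (by linarith), X.val]; simp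
    · rw [if_pos (by linarith), if_pos c, if_neg c.ne']; simp
  · simp only [map_smul, co_cut, co_dl, mem_singleton_iff]
    split_ifs with d
    · rw [d, X.val]; simp
    · simp

theorem Cx.ςt (X : Cx a N C) (k : ℕ) : ((N k : ℝ) + 255 * N k) * ((N (k + 1) : ℚ)⁻¹ : ℚ) ≤ 1 := by
  have : (((N (k + 1) : ℚ)⁻¹ : ℚ) : ℝ) ≤ (N k : ℝ)⁻¹ / 1000 := by
    simpa using (Rat.cast_le (K := ℝ)).mpr (X.t8 k)
  have h3 := (X.hh k).2.2.2.2.1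
  calc _ ≤ ((N k : ℝ) + 255 * N k) * ((N k : ℝ)⁻¹ / 1000) := by gcongr
    _ ≤ _ := by field_simp; norm_num

theorem Cx.hu2 (X : Cx a N C) (k : ℕ) :
    ‖uu a ((1 / 16) ^ (k + 1)) (N (k + 1) : ℚ)⁻¹ (N k + 255 * N k)‖ ≤ 1 / 2 := by
  obtain ⟨-, h1, h2, -, h3, -⟩ := X.hh k
  obtain ⟨g0, g1, -, -, g2, -⟩ := numH h1 h2
  have h' : (0 : ℝ) < N k + 255 * N k := by positivity
  refine uu_le h' (by positivity) (X.ςt k) (X.val _) (X.tail _) ?_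
  rw [(X.sp k).1, em_add h']
  have e1 := (em_far h' (G := 256) (by norm_num) (f := (((1 / 16 : ℝ) ^ k : ℝ) : ℂ) • dl (N k : ℚ)⁻¹)
    (((sup_dl _).smul _).mono fun u h => by rw [h]; push_cast; field_simp; norm_num)).1
  rw [norm_smul, dl_norm, Complex.norm_real, Real.norm_of_nonneg g2.le] at e1
  refine (na e1 (X.far k (by linarith)).1).trans ?_
  rw [pow_succ (1 / 16 : ℝ)]; linarith

theorem Cx.cut3 (X : Cx a N C) (k : ℕ) : cut (Iic (N k : ℚ)⁻¹) a -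
    (((1 / 16 : ℝ) ^ k : ℝ) : ℂ) • dl (N k : ℚ)⁻¹ = cut (Iio (N k : ℚ)⁻¹) a := ext' fun u => by
  simp only [map_sub, map_smul, co_cut, co_dl, mem_Iio, mem_Iic]
  rcases lt_trichotomy u (N k : ℚ)⁻¹ with c | c | c
  · simp [c, c.ne, c.le]
  · simp [c, X.val]
  · simp [c.ne', c.not_gt, c.not_ge]

theorem Cx.hu3 (X : Cx a N C) (k : ℕ) :
    ‖uu (cut (Iic (N k : ℚ)⁻¹) a) ((1 / 16) ^ k) (N k : ℚ)⁻¹ (N k)‖ ≤ 1 / 2 ∧
    Sup (· ≤ (N (k + 1) : ℚ)⁻¹ - (N k : ℚ)⁻¹)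
      (uu (cut (Iic (N k : ℚ)⁻¹) a) ((1 / 16) ^ k) (N k : ℚ)⁻¹ (N k)) := by
  have h3 := (X.hh k).2.2.2.2.1
  rw [uu, X.cut3]
  refine ⟨(nm (iw_le (by positivity) (by simp [h3.ne'])) ((em_le h3 _).trans (X.tail k))).trans
    (by field_simp; norm_num), ((sup_dl _).smul _).mul (em_sup h3 (X.gap k)) fun s t a b => ?_⟩
  linarith [b.2]

theorem nn {R : Type} [NormedCommRing R] {x : R} {p : ℝ} (h : ‖x‖ ≤ p) : ‖-x‖ ≤ p :=
  (norm_neg x).trans_le h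

theorem pr_add {M : ℝ} (h : 0 < M) (f g : B) : pr h (f + g) = pr h f + pr h g :=
  A.ext1 (em_add h f g)

theorem prD_add {M : ℝ} (h : 0 < M) (f g : B) : prD h (f + g) = prD h f + prD h g :=
  A.ext1 (by exact (congrArg ((M : ℂ) • ·) (emD_add h f g)).trans (smul_add _ _ _))

theorem Cx.hD (X : Cx a N C) (k : ℕ) (h : (0 : ℝ) < N k) :
    ‖prD h a - pr h (cut {(N k : ℚ)⁻¹} a)‖ ≤ (Hk C k ^ 30)⁻¹ := by
  obtain ⟨-, h1, h2, -, -, -, -, h4, -⟩ := X.hh k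
  obtain ⟨g0, -, g1, g2, -⟩ := numH h1 h2
  have p : 0 < (N k : ℚ)⁻¹ := inv_pos.mpr (by exact_mod_cast X.N0 k)
  have e : prD h (cut {(N k : ℚ)⁻¹} a) = pr h (cut {(N k : ℚ)⁻¹} a) := A.ext1 (ext' fun u => by
    change co u (((N k : ℝ) : ℂ) • emD _ _) = co u (em _ _)
    rw [map_smul, em_isD h _ u]
    by_cases c : u = (N k : ℚ)⁻¹
    · have : ((N k : ℝ) : ℂ) ≠ 0 := by exact_mod_cast h.ne'
      rw [c]; push_cast at this ⊢; simp [this]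
    · simp [(em_sup h (sup_cut {(N k : ℚ)⁻¹} a)).zero fun a => c a.2])
  have e2 := split3 (X.val k)
  rw [← (X.sp k).2, sub_eq_iff_eq_add] at e2
  have e3 := congrArg (prD h) e2
  rw [prD_add, prD_add, e] at e3
  rw [show prD h a - pr h (cut {(N k : ℚ)⁻¹} a) = prD h (cut (Iio (N k : ℚ)⁻¹) a) +
    prD h (cut (Ioi (N k : ℚ)⁻¹) a) by linear_combination e3]
  have n : ∀ ς : ℝ, 0 < ς → ‖((N k : ℝ) : ℂ) • emD ς (cut (Iio (N k : ℚ)⁻¹) a)‖ ≤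
      (Hk C k ^ 50)⁻¹ * 2 := fun ς hς => by
    refine (emD_near hς h.le (by positivity) (X.gap k)).trans (mul_le_mul ?_
      ((cut_le _ _).trans X.nA) (norm_nonneg _) (by positivity))
    push_cast
    rw [← div_eq_mul_inv, div_le_iff₀ (X.hh _).2.2.2.2.1, inv_mul_eq_div, le_div_iff₀ (by linarith)]
    linarith
  refine (na (A.nl (p := prD h _) (n _ h) (n _ (by positivity))) (A.nl (p := prD h _)
    (X.far k le_rfl).2 (X.far k (by linarith)).2)).trans (by linarith)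

noncomputable def αk (a : B) (N : ℕ → ℕ) (k : ℕ) : B := al a ((1 / 16) ^ k) (N k : ℚ)⁻¹ (N k)

noncomputable def αk' (a : B) (N : ℕ → ℕ) (k : ℕ) : B :=
  al a ((1 / 16) ^ (k + 1)) (N (k + 1) : ℚ)⁻¹ (N k + 255 * N k)

theorem Cx.zn (X : Cx a N C) (pb : Sup (0 < ·) b) (pc : Sup (0 < ·) c) (e : a = b * c)
    (n : 2 * (‖b‖ * ‖c‖) ≤ C) (k : ℕ) (h : (0 : ℝ) < N k) : ∃ V, Zn a b c (N k) h (N k : ℚ)⁻¹
      (Hk C k) (Hk C k ^ 30)⁻¹ (N (k + 1) - (N k + 255 * N k)) (αk a N k) (αk' a N k)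
      (αk a N (k + 1)) V := by
  obtain ⟨h0, h1, h2, h3, -, -, -, h4, -⟩ := X.hh k
  obtain ⟨g0, g1, g2, g3, g4, -, g5⟩ := numH h1 h2
  have h' : (0 : ℝ) < N k + 255 * N k := by positivity
  have h'' := (X.hh (k + 1)).2.2.2.2.1
  have p : ∀ k, 0 < (N k : ℚ)⁻¹ := fun k => inv_pos.mpr (by exact_mod_cast X.N0 k)
  have γ0 : (0 : ℝ) < (1 / 16) ^ (k + 1) := by positivity
  have d0 : (0 : ℝ) ≤ N (k + 1) - (N k + 255 * N k) := by nlinarith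
  have s1 := X.ςt k
  have s2 : (N k : ℝ) * ((N (k + 1) : ℚ)⁻¹ : ℚ) ≤ 1 := le_trans (by
    have := p (k + 1); gcongr; linarith) s1
  have q : 6 / (1 / 16 : ℝ) ^ (k + 1) = 96 / (1 / 16) ^ k := by rw [pow_succ]; field_simp; norm_num
  let W : A (255 * N k) := ⟨(iw ((1 / 16) ^ (k + 1)) (N (k + 1) : ℚ)⁻¹ (N k),
    iw ((1 / 16) ^ (k + 1)) (N (k + 1) : ℚ)⁻¹ (N k + 255 * N k)), iw_rel _⟩
  have w1 : ‖W‖ ≤ 3 / (1 / 16) ^ (k + 1) := A.nl (iw_le γ0 s2) (iw_le γ0 s1)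
  have w2 : pr h (cut {(N (k + 1) : ℚ)⁻¹} a) * W = 1 :=
    A.ext1 (by rw [(X.sp _).2]; exact iw_mul h (p _) γ0)
  have w3 : pr h a = pr h (cut (Iio (N (k + 1) : ℚ)⁻¹) a) + (pr h (cut {(N k : ℚ)⁻¹} a) +
      pr h (cut (Ioi (N k : ℚ)⁻¹) a)) + pr h (cut {(N (k + 1) : ℚ)⁻¹} a) := by
    rw [← pr_add, ← pr_add, ← pr_add, (X.sp k).2, ← (X.sp k).1, ← split3 (X.val _), (X.sp _).2,
      sub_add_cancel]
  obtain ⟨U, hU⟩ : ∃ U, U = -(W * (prD h a - pr h (cut {(N k : ℚ)⁻¹} a) -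
    pr h (cut (Iio (N (k + 1) : ℚ)⁻¹) a) - pr h (cut (Ioi (N k : ℚ)⁻¹) a))) := ⟨_, rfl⟩
  have w4 : ‖U‖ ≤ 1 / 2 := by
    rw [hU]
    refine (nn (nm w1 (ns (ns (X.hD k h) ((pr_le h _).trans (X.tail _)))
      (A.nl (p := pr h _) (X.far k le_rfl).1 (X.far k (by linarith)).1)))).trans ?_
    rw [div_mul_eq_mul_div, div_le_iff₀ γ0, pow_succ (1 / 16 : ℝ)]; linarith
  have w5 : ‖-(W * geo U)‖ ≤ 96 / (1 / 16) ^ k := by
    rw [← q]; exact (nn (nm w1 (geo_le w4))).trans_eq (by ring)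
  refine ⟨-(W * geo U), by simp [h.ne'], pb, pc, e, by linarith [Real.exp_pos 255], n.trans h3,
    X.nA, al_mul h (p k) g4 (X.hu1 k), al_mul h' (p _) γ0 (X.hu2 k), ?_, d0,
    (al_le g4 (by simp [h.ne']) (X.hu1 k)).trans (le_trans (by gcongr; norm_num) g5),
    (al_le γ0 s1 (X.hu2 k)).trans (q ▸ g5), (al_le γ0 (by simp [h''.ne']) (X.hu1 _)).trans (q ▸ g5),
    ?_, w5.trans g5, ?_, (X.far k le_rfl).1.trans (by linarith), ?_, (mul_inv_cancel₀ (by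
      positivity)).le⟩
  · have := al_rel h' d0 (X.hu2 k) (by rw [add_sub_cancel]; exact X.hu1 _)
    rwa [add_sub_cancel] at this
  · have := geo_mul w4
    generalize geo U = G at *
    rw [w3, hU] at *
    linear_combination this + G * w2
  · have : ‖cut (Iic (N k : ℚ)⁻¹) a‖ ≤ (1 / 16) ^ k / 15 + (1 / 16) ^ k := by
      rw [eq_add_of_sub_eq (X.cut3 k)]
      exact na (X.tail k) (by rw [norm_smul, dl_norm, Complex.norm_real,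
        Real.norm_of_nonneg g4.le, mul_one])
    exact (mul_le_mul w5 this (norm_nonneg _) (by positivity)).trans (by field_simp; norm_num)
  · have : Hk C k ^ 50 / 4 ≤ (N (k + 1) - (N k + 255 * N k)) * (((N k : ℚ)⁻¹ : ℚ) / 2 : ℝ) := by
      push_cast
      rw [← mul_div_assoc, ← div_eq_mul_inv, le_div_iff₀ two_pos, le_div_iff₀ h]
      nlinarith
    refine le_trans ?_ g2
    rw [Real.exp_neg]
    calc _ ≤ (Hk C k ^ 50 / 4)⁻¹ := by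
          gcongr; exact this.trans (by linarith [Real.add_one_le_exp ((N (k + 1) -
            (N k + 255 * N k)) * (((N k : ℚ)⁻¹ : ℚ) / 2 : ℝ))])
      _ ≤ _ := by rw [inv_div, div_eq_mul_inv]; gcongr; norm_num

end Pool.Agent.H.MP_89f94c_an
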