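import Pool.Agent.H.MP_89f94c_an.G

namespace Pool.Agent.H.MP_89f94c_an

open Filter Topology Set

attribute [local irreducible] ml geo

set_option maxHeartbeats 300000

variable {a b c : B} {N : ℕ → ℕ} {C : ℝ}

noncomputable def tr (a : B) (N : ℕ → ℕ) (f : B) (k : ℕ) (u : ℚ) : ℂ :=
  ex (N k) u * co u (em (N k) f * αk a N k)

noncomputable def tb (a : B) (N : ℕ → ℕ) (b c : B) (k : ℕ) (u : ℚ) : ℂ :=
  ex (N k) u * co u (be b c (N k) (αk a N k))

noncomputable def tA (a : B) (N : ℕ → ℕ) (k : ℕ) (u : ℚ) : ℂ :=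
  ex (N k) u * co u (emD (N k) a * αk a N k)

theorem trans' {M M' : ℝ} {x y : B} (h : Rel (ex (-(M' - (M + 255 * M)))) x y) (u : ℚ) :
    ex M' u * co u y = ex M u * (ex (255 * M) u * co u x) := by
  rw [h u, ← mul_assoc, ← mul_assoc, ex_mul, ex_mul]; congr 2; ring

theorem Cx.inv (X : Cx a N C) (k : ℕ) : em (N k) a * αk a N k = 1 ∧ ‖αk a N k‖ ≤ 6 * 16 ^ k := by
  have h := (X.hh k).2.2.2.2.1
  refine ⟨al_mul h (inv_pos.mpr (by exact_mod_cast X.N0 k)) (by positivity) (X.hu1 k),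
    (al_le (by positivity) (by simp [h.ne']) (X.hu1 k)).trans_eq (by simp)⟩

theorem Cx.logT (X : Cx a N C) (pb : Sup (0 < ·) b) (pc : Sup (0 < ·) c) (e : a = b * c) (k : ℕ)
    (n : ℝ) {η : ℝ} (h1 : ‖T n b - b‖ * ‖c‖ * (6 * 16 ^ k) ≤ η / 2) (h2 : η ≤ 1) :
    ∃ g, ‖g‖ ≤ η ∧ IsD g (T n (be b c (N k) (αk a N k)) - be b c (N k) (αk a N k)) := by
  have h := (X.hh k).2.2.2.2.1
  obtain ⟨i, nα⟩ := X.inv k
  obtain ⟨w, hw⟩ := al_D h (X.hu1 k)
  have e1 : em (N k) b * (em (N k) c * αk a N k) = 1 := by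
    rw [← mul_assoc, ← em_mul h pb pc, ← e, i]
  have e2 : T n (em (N k) b) * (em (N k) c * αk a N k) - 1 =
      em (N k) (T n b - b) * em (N k) c * αk a N k := by
    rw [em_sub h, ← T_em h]; linear_combination e1
  have n1 : ‖T n (em (N k) b) * (em (N k) c * αk a N k) - 1‖ ≤ η / 2 := by
    rw [e2]; exact (nm (nm (em_le h _) (em_le h _)) nα).trans h1
  obtain ⟨g, g1, g2⟩ := logL (em_isD h b) ((em_isD h b).T n) e1
    (by rw [← map_mul, e1, map_one] : _ * T n (em (N k) c * αk a N k) = 1)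
    ((em_isD h c).mul' hw) (n1.trans (by linarith))
  refine ⟨g, by linarith, ?_⟩
  rwa [← map_mul, ← mul_assoc] at g2

theorem Cx.xi (X : Cx a N C) (j : ℕ) : ‖T (N j) a - a‖ ≤ 14 * N j / N (j + 1) := by
  have h := (X.hh j).2.2.2.2.1
  have h' := (X.hh (j + 1)).2.2.2.2.1
  refine (nle (x := a) (C := 7 * N j / N (j + 1)) fun u => ?_).trans
    ((mul_le_mul_of_nonneg_left X.nA (by positivity)).trans_eq (by ring))
  rw [map_sub, co_T, ← sub_one_mul, norm_mul]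
  by_cases c : co u a = 0
  · simp [c]
  gcongr
  obtain ⟨i, rfl⟩ := X.sup u c
  have hi := (X.hh i).2.2.2.2.1
  rcases le_or_gt i j with d | d
  · obtain ⟨m, hm⟩ : N i ∣ N j := by
      clear h h'
      induction d with
      | refl => rfl
      | step _ ih => exact ih.trans ((Dvd.intro_left 2 rfl).trans (X.dvd _))
    have : ψ (N j) (N i : ℚ)⁻¹ = 1 := by
      rw [ψ, ← Complex.exp_nat_mul_two_pi_mul_I m, hm]
      congr 1
      have : (N i : ℂ) ≠ 0 := by exact_mod_cast hi.ne'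
      push_cast; field_simp
    rw [this, sub_self, norm_zero]; positivity
  · refine Real.norm_exp_I_mul_ofReal_sub_one_le.trans ?_
    have : (N (j + 1) : ℝ) ≤ N i := by exact_mod_cast X.mono d
    push_cast
    rw [Real.norm_of_nonneg (by positivity), ← mul_assoc, ← div_eq_mul_inv]
    gcongr
    linarith [Real.pi_lt_d2]

theorem numx {H H' n n' ξ : ℝ} {j : ℕ} (h1 : 10 ^ 8 ≤ H) (h2 : H ≤ H') (h3 : 1 ≤ n)
    (h4 : H' ^ 50 * (j + 1) * n ^ 2 ≤ n') (h5 : ξ = 14 * n / n') :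
    0 ≤ ξ ∧ n * ((j + 1) * (2 * (H' ^ 11 * ξ))) ≤ (H ^ 30)⁻¹ ∧ H' ^ 11 * ξ ≤ (H ^ 30)⁻¹ ∧
      ξ ≤ (H ^ 30)⁻¹ := by
  have H0 : 0 < H := by linarith
  have H1 : 1 ≤ H' := by linarith
  have a0 : 0 < H' ^ 50 * (j + 1) * n ^ 2 := by positivity
  have ξ0 : 0 ≤ ξ := by rw [h5]; have := a0.trans_le h4; positivity
  have a1 : n * ((j + 1) * (2 * (H' ^ 11 * ξ))) ≤ (H ^ 30)⁻¹ :=
    calc _ ≤ n * ((j + 1) * (2 * (H' ^ 11 * (14 * n / (H' ^ 50 * (j + 1) * n ^ 2))))) := by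
          rw [h5]; gcongr
      _ = 28 * (H' ^ 9)⁻¹ * (H' ^ 30)⁻¹ := by field_simp; norm_num
      _ ≤ 1 * (H ^ 30)⁻¹ := by
          gcongr
          rw [← div_eq_mul_inv, div_le_one (by positivity)]
          exact le_trans (by linarith) (le_self_pow₀ H1 (by norm_num))
      _ = _ := one_mul _
  have a2 : 0 ≤ H' ^ 11 * ξ := by positivity
  have a3 : H' ^ 11 * ξ ≤ (H ^ 30)⁻¹ := by
    refine le_trans ?_ a1
    have : (0 : ℝ) ≤ j := by positivity
    calc _ ≤ 1 * (1 * (2 * (H' ^ 11 * ξ))) := by linarith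
      _ ≤ _ := by gcongr; linarith
  exact ⟨ξ0, a1, a3, (le_mul_of_one_le_left ξ0 (one_le_pow₀ H1)).trans a3⟩

theorem alg1 {n e1 e2 P P' G m y y' : ℂ} (h : n ≠ 0) (a1 : e1 * P = G + m)
    (a2 : n * P - e2 * (n * P') = y - e2 * y') :
    e1 * (e2 * P') = G + (m - n⁻¹ * (e1 * y) + n⁻¹ * (e1 * e2 * y')) := by
  linear_combination a1 - n⁻¹ * e1 * a2 + e1 * (P - e2 * P') * mul_inv_cancel₀ h

theorem Cx.Hm (X : Cx a N C) : Monotone (Hk C) := monotone_nat_of_le_succ fun k => by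
  obtain ⟨-, h1, -, -, -, -, -, -, h2, -⟩ := X.hh k
  linarith

theorem Cx.rels (X : Cx a N C) (k : ℕ) {δ : ℝ} (hδ : δ = N (k + 1) - (N k + 255 * N k))
    (d0 : 0 ≤ δ) (f : B) : Rel (ex (-δ)) (em (N k + 255 * N k) f) (em (N (k + 1)) f) ∧
      Rel (ex (-δ)) (emD (N k + 255 * N k) f) (emD (N (k + 1)) f) := by
  have h := (X.hh k).2.2.2.2.1
  have h' : (0 : ℝ) < N k + 255 * N k := by positivity
  have a1 := em_rel2 h' d0 f
  have a2 := emD_rel2 h' d0 f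
  rw [show (N k : ℝ) + 255 * N k + δ = N (k + 1) by rw [hδ]; ring] at a1 a2
  exact ⟨a1, a2⟩

theorem Cx.st1 (X : Cx a N C) (pb : Sup (0 < ·) b) (pc : Sup (0 < ·) c) (e : a = b * c)
    (n : 2 * (‖b‖ * ‖c‖) ≤ C) (j : ℕ)
    (hη : ‖T (N j) b - b‖ * ‖c‖ * 12 ≤ (Real.exp 255 * 10 ^ 5)⁻¹) :
    ∃ ε : ℂ, (ε = 0 ∧ tr a N c j = tr a N c (j + 1) ∨ ε = 1 ∧ tr a N b j = tr a N b (j + 1)) ∧
      ∀ u, tb a N b c j u - ε * tA a N j u = tb a N b c (j + 1) u - ε * tA a N (j + 1) u := by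
  obtain ⟨η, hη'⟩ : ∃ η, η = (Real.exp 255 * 10 ^ 5)⁻¹ := ⟨_, rfl⟩
  have η1 : η * Real.exp 255 * 10 ^ 5 ≤ 1 := by
    rw [hη', mul_assoc, inv_mul_cancel₀ (by positivity)]
  obtain ⟨ξ, hξ⟩ : ∃ ξ : ℝ, ξ = 14 * N j / N (j + 1) := ⟨_, rfl⟩
  have φ1 : ∀ {r : ℝ}, 0 ≤ r → ∀ u : ℚ, ‖if u < 0 then ex r u else 0‖ ≤ 1 := fun hr u => by
    split_ifs with c
    · rw [ex_norm, Real.exp_le_one_iff]
      have : (u : ℝ) < 0 := by exact_mod_cast c
      nlinarith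
    · simp
  obtain ⟨g0, g1, g2⟩ := X.logT pb pc e 0 (N j) (η := η) (by rw [hη']; linarith) (by
    rw [hη']; exact inv_le_one_of_one_le₀ (by nlinarith [Real.one_le_exp (x := 255) (by norm_num)]))
  have g3 := ((ml_le (φ1 (X.hh 0).2.2.2.2.1.le) g0).trans_eq (one_mul _)).trans g1
  obtain ⟨g, hg⟩ : ∃ g, g = ml (fun u => if u < 0 then ex (N 0) u else 0) g0 := ⟨_, rfl⟩
  rw [← hg] at g3
  have hj := X.hh j
  have stp : ∀ k ≤ j, ∀ m : B, ‖m‖ ≤ k * (2 * (Hk C j ^ 11 * ξ)) → (∀ u < 0, ex (N k) u * co u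
      (T (N j) (be b c (N k) (αk a N k)) - be b c (N k) (αk a N k)) = u * co u g + co u m) →
      ∃ y y' : B, ‖y‖ ≤ Hk C j ^ 11 * ξ ∧ ‖y'‖ ≤ Hk C j ^ 11 * ξ ∧ ∀ u, ((N k : ℝ) : ℂ) * co u
        (T (N j) (be b c (N k) (αk a N k)) - be b c (N k) (αk a N k)) - ex (255 * N k) u *
        (((N k : ℝ) : ℂ) * co u (T (N j) (be b c (N k + 255 * N k) (αk' a N k)) -
          be b c (N k + 255 * N k) (αk' a N k))) = co u y - ex (255 * N k) u * co u y' := by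
    intro k hk m m1 m2
    obtain ⟨-, h1, -, -, h, -⟩ := X.hh k
    obtain ⟨V, Z⟩ := X.zn pb pc e n k h
    obtain ⟨x0, x1, -, x2⟩ := numx h1 (X.Hm hk) hj.2.2.2.2.2.1 hj.2.2.2.2.2.2.1 hξ
    have : Hk C k ^ 11 * ξ ≤ Hk C j ^ 11 * ξ := by gcongr; exact X.Hm hk
    obtain ⟨y, y', y1, y2, y3⟩ := Z.step (hξ ▸ X.xi j) x2 η1 g3 (le_trans (by
      have : (N k : ℝ) ≤ N j := by exact_mod_cast X.mono hk
      have : (k : ℝ) ≤ j := by exact_mod_cast hk
      have : 0 ≤ Hk C j := by linarith [hj.2.1]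
      gcongr
      exact m1.trans (by gcongr; linarith)) x1) m2
    exact ⟨y, y', y1.trans this, y2.trans this, y3⟩
  have ind : ∀ k ≤ j, ∃ m : B, ‖m‖ ≤ k * (2 * (Hk C j ^ 11 * ξ)) ∧ ∀ u < 0, ex (N k) u * co u
      (T (N j) (be b c (N k) (αk a N k)) - be b c (N k) (αk a N k)) = u * co u g + co u m := by
    intro k
    induction k with
    | zero => exact fun _ => ⟨0, by simp, fun u hu => by
        rw [g2 u, hg, co_ml (φ1 (X.hh 0).2.2.2.2.1.le), if_pos hu, map_zero]; ring⟩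
    | succ k ih =>
      intro hk
      obtain ⟨m, m1, m2⟩ := ih (by omega)
      obtain ⟨y, y', y1, y2, y3⟩ := stp k (by omega) m m1 m2
      obtain ⟨-, -, -, -, h, h', -⟩ := X.hh k
      obtain ⟨V, Z⟩ := X.zn pb pc e n k h
      have r := X.rels k rfl Z.d0
      have r1 := (((r b).2.mul (ex_add _) (r c).1).mul (ex_add _) Z.rel)
      have sm : ∀ x : B, ‖((N k : ℝ) : ℂ)⁻¹ • x‖ ≤ ‖x‖ := fun x => by
        rw [norm_smul, norm_inv, Complex.norm_real, Real.norm_of_nonneg h.le]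
        exact mul_le_of_le_one_left (norm_nonneg _) (inv_le_one_of_one_le₀ h')
      have p2 : (0 : ℝ) ≤ N k + 255 * N k := by positivity
      refine ⟨m - ((N k : ℝ) : ℂ)⁻¹ • ml (fun u => if u < 0 then ex (N k) u else 0) y +
        ((N k : ℝ) : ℂ)⁻¹ • ml (fun u => if u < 0 then ex (N k + 255 * N k) u else 0) y',
        (na (ns m1 ((sm _).trans (((ml_le (φ1 h.le) _).trans_eq (one_mul _)).trans y1)))
          ((sm _).trans (((ml_le (φ1 p2) _).trans_eq (one_mul _)).trans y2))).trans_eq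
          (by push_cast; ring), fun u hu => ?_⟩
      have := trans' ((r1.T (N j)).sub r1) u
      have h0 : ((N k : ℝ) : ℂ) ≠ 0 := by exact_mod_cast h.ne'
      rw [map_add (co u), map_sub (co u) m, map_smul, map_smul, co_ml (φ1 h.le), co_ml (φ1 p2),
        if_pos hu, if_pos hu, smul_eq_mul, smul_eq_mul, ← ex_mul]
      exact this.trans (alg1 h0 (m2 u hu) (y3 u))
  obtain ⟨m, m1, m2⟩ := ind j le_rfl
  obtain ⟨y, y', y1, y2, y3⟩ := stp j le_rfl m m1 m2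
  have h := hj.2.2.2.2.1
  obtain ⟨V, Z⟩ := X.zn pb pc e n j h
  obtain ⟨-, -, x1, -⟩ := numx hj.2.1 le_rfl hj.2.2.2.2.2.1 hj.2.2.2.2.2.2.1 hξ
  have p : 0 < (N j : ℚ)⁻¹ := inv_pos.mpr (by exact_mod_cast X.N0 j)
  have r := X.rels j rfl Z.d0
  have h0 : ((N j : ℝ) : ℂ) ≠ 0 := by exact_mod_cast h.ne'
  have z : ∀ f : A (255 * N j), pr h a ∣ f → ∀ u, co u (f.1.1 * αk a N j) =
      ex (255 * N j) u * co u (f.1.2 * αk' a N j) := fun f d u => by
    have := Ph_dvd (a := pr h a) (g := 0) Z.i1 Z.i2 (by simpa using d) u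
    simpa [Ph, sub_eq_zero] using this
  have t1 : ∀ f, pr h a ∣ pr h f → tr a N f j = tr a N f (j + 1) := fun f d => funext fun u => by
    rw [tr, tr, trans' ((r f).1.mul (ex_add _) Z.rel)]
    exact congrArg _ (z _ d u)
  have b1 := fun u => trans' (((r b).2.mul (ex_add _) (r c).1).mul (ex_add _) Z.rel) u
  have b2 := fun u => trans' ((r a).2.mul (ex_add _) Z.rel) u
  obtain ⟨hu, su⟩ := X.hu3 j
  rcases Z.spec (al_mul h p (by positivity) hu) ((al_le (by positivity) (by simp [h.ne']) hu).trans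
    (le_trans (by gcongr; norm_num) (numH hj.2.1 hj.2.2.1).2.2.2.2.2.2))
    (((sup_dl _).smul _).mul (Sup.geo (su.mono fun u a => by linarith [X.t8 j]) hu)
      fun s t a b => by linarith) ((X.gap j).mono fun u a => by linarith [X.t8 j]) (X.hD j h)
    (y1.trans x1) (y2.trans x1) y3 with d | d
  · refine ⟨0, .inl ⟨rfl, t1 c d⟩, fun u => ?_⟩
    have := z _ (d.mul_left (prD h b)) u
    change co u (_ • emD _ b * em _ c * _) = _ * co u (_ • emD _ b * em _ c * _) at this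
    simp only [smul_mul_assoc, map_smul, smul_eq_mul] at this
    rw [zero_mul, zero_mul, sub_zero, sub_zero, tb, tb, be, be, b1]
    congr 1
    exact mul_left_cancel₀ h0 (by linear_combination this)
  · refine ⟨1, .inr ⟨rfl, t1 b d⟩, fun u => ?_⟩
    obtain ⟨e1, e2, -⟩ := Z.alg
    have := z (prD h b * pr h c - prD h a) (by
      convert (d.mul_right (-prD h c)) using 1; linear_combination -e2 - e1) u
    change co u ((_ • emD _ b * em _ c - _ • emD _ a) * _) =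
      _ * co u ((_ • emD _ b * em _ c - _ • emD _ a) * _) at this
    simp only [sub_mul, smul_mul_assoc, map_smul, map_sub, smul_eq_mul] at this
    rw [one_mul, one_mul, tb, tb, be, be, b1, tA, tA, b2]
    exact mul_left_cancel₀ h0 (by linear_combination ex (N j) u * this)

end Pool.Agent.H.MP_89f94c_an
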